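import Pool.Agent.Lib.Pc0b458D.Mul

/-!
# The product of complementary monomials
-/

universe u

namespace Pc0b458D

open Pc0b458Z

variable {B : NumAb.{u}} {r : ℕ}

/-- `i` is in exactly one of the two sets -/
def IsOdd (I J : Finset (Fin r)) (i : Fin r) : Prop := (i ∈ I ∧ i ∉ J) ∨ (i ∉ I ∧ i ∈ J)

instance (I J : Finset (Fin r)) : DecidablePred (IsOdd I J) := fun i => by
  unfold IsOdd
  infer_instance

theorem blk_comm_iota (I J : Finset (Fin r)) (i : Fin r) (v : Fin r × Bool → B.Z) :
    blk I J i * iota v = (-1) ^ (if IsOdd I J i then 1 else 0) * (iota v * blk I J i) := by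
  have h1 : ∀ w : Fin r × Bool → B.Z, iota w * iota v = -(iota v * iota w) :=
    fun w => iota_anti w v
  by_cases hI : i ∈ I <;> by_cases hJ : i ∈ J
  · have h2 : ¬ IsOdd I J i := by unfold IsOdd; tauto
    rw [if_neg h2, pow_zero, one_mul, blk, if_pos hI, if_pos hJ]
    unfold x y
    rw [mul_assoc, h1, mul_neg, ← mul_assoc, h1, neg_mul, neg_neg, mul_assoc]
  · have h2 : IsOdd I J i := by unfold IsOdd; tauto
    rw [if_pos h2, pow_one, neg_one_mul, blk, if_pos hI, if_neg hJ, mul_one]
    exact h1 _
  · have h2 : IsOdd I J i := by unfold IsOdd; tauto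
    rw [if_pos h2, pow_one, neg_one_mul, blk, if_neg hI, if_pos hJ, one_mul]
    exact h1 _
  · have h2 : ¬ IsOdd I J i := by unfold IsOdd; tauto
    rw [if_neg h2, pow_zero, one_mul, blk, if_neg hI, if_neg hJ, one_mul, one_mul, mul_one]

/-- the number of the odd indices in a list -/
def oddN (I J : Finset (Fin r)) : List (Fin r) → ℕ
  | [] => 0
  | i :: l => (if IsOdd I J i then 1 else 0) + oddN I J l

/-- the number of the indices in a list which are in `J` but not in `I` -/
def negN (I J : Finset (Fin r)) : List (Fin r) → ℕ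
  | [] => 0
  | i :: l => (if i ∉ I ∧ i ∈ J then 1 else 0) + negN I J l

/-- the exponent of the sign -/
def sgnN (I J : Finset (Fin r)) : List (Fin r) → ℕ
  | [] => 0
  | i :: l => ((if IsOdd I J i then oddN I J l else 0) + (if i ∉ I ∧ i ∈ J then 1 else 0)) +
      sgnN I J l

theorem neg_one_pow_comm {R : Type*} [Ring R] (n : ℕ) (a : R) : a * (-1) ^ n = (-1) ^ n * a :=
  ((Commute.neg_one_right a).pow_right n).eq

theorem prod_comm_iota (I J : Finset (Fin r)) (l : List (Fin r)) (v : Fin r × Bool → B.Z) :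
    (l.map (blk I J)).prod * iota v =
      (-1) ^ oddN I J l * (iota v * (l.map (blk I J)).prod) := by
  induction l with
  | nil => simp [oddN]
  | cons i l ih =>
    rw [List.map_cons, List.prod_cons, mul_assoc, ih, ← mul_assoc (blk I J i), neg_one_pow_comm,
      mul_assoc, ← mul_assoc (blk I J i), blk_comm_iota, mul_assoc, mul_assoc, ← mul_assoc,
      ← pow_add, oddN]
    congr 2
    ring

theorem prod_comm_blk (I J : Finset (Fin r)) (l : List (Fin r)) (i : Fin r) :
    ((l.map (blk I J)).prod : Lam B r) * blk Iᶜ Jᶜ i =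
      (-1) ^ (if IsOdd I J i then oddN I J l else 0) *
        (blk Iᶜ Jᶜ i * (l.map (blk I J)).prod) := by
  by_cases hI : i ∈ I <;> by_cases hJ : i ∈ J
  · have h2 : ¬ IsOdd I J i := by unfold IsOdd; tauto
    have h3 : (blk Iᶜ Jᶜ i : Lam B r) = 1 := by
      rw [blk, if_neg (by simpa using hI), if_neg (by simpa using hJ), one_mul]
    rw [if_neg h2, h3, pow_zero, one_mul, one_mul, mul_one]
  · have h2 : IsOdd I J i := by unfold IsOdd; tauto
    have h3 : (blk Iᶜ Jᶜ i : Lam B r) = y i := by
      rw [blk, if_neg (by simpa using hI), if_pos (by simpa using hJ), one_mul]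
    rw [if_pos h2, h3]
    exact prod_comm_iota I J l _
  · have h2 : IsOdd I J i := by unfold IsOdd; tauto
    have h3 : (blk Iᶜ Jᶜ i : Lam B r) = x i := by
      rw [blk, if_pos (by simpa using hI), if_neg (by simpa using hJ), mul_one]
    rw [if_pos h2, h3]
    exact prod_comm_iota I J l _
  · have h2 : ¬ IsOdd I J i := by unfold IsOdd; tauto
    have h3 : (blk Iᶜ Jᶜ i : Lam B r) = x i * y i := by
      rw [blk, if_pos (by simpa using hI), if_pos (by simpa using hJ)]
    rw [if_neg h2, h3, pow_zero, one_mul]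
    unfold x y
    rw [← mul_assoc, prod_comm_iota, mul_assoc, mul_assoc, prod_comm_iota, ← mul_assoc (iota _),
      neg_one_pow_comm, mul_assoc, ← mul_assoc, ← pow_add, ← two_mul, pow_mul, neg_one_sq, one_pow,
      one_mul, mul_assoc]

theorem blk_mul_blk (I J : Finset (Fin r)) (i : Fin r) :
    (blk I J i : Lam B r) * blk Iᶜ Jᶜ i =
      (-1) ^ (if i ∉ I ∧ i ∈ J then 1 else 0) * (x i * y i) := by
  by_cases hI : i ∈ I <;> by_cases hJ : i ∈ J
  · rw [if_neg (by tauto), blk, blk, if_pos hI, if_pos hJ, if_neg (by simpa using hI),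
      if_neg (by simpa using hJ)]
    simp
  · rw [if_neg (by tauto), blk, blk, if_pos hI, if_neg hJ, if_neg (by simpa using hI),
      if_pos (by simpa using hJ)]
    simp
  · rw [if_pos (by tauto), blk, blk, if_neg hI, if_pos hJ, if_pos (by simpa using hI),
      if_neg (by simpa using hJ), one_mul, mul_one, pow_one, neg_one_mul]
    exact iota_anti _ _
  · rw [if_neg (by tauto), blk, blk, if_neg hI, if_neg hJ, if_pos (by simpa using hI),
      if_pos (by simpa using hJ)]
    simp

theorem prod_mul_prod (I J : Finset (Fin r)) (l : List (Fin r)) :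
    ((l.map (blk I J)).prod : Lam B r) * (l.map (blk Iᶜ Jᶜ)).prod =
      (-1) ^ sgnN I J l * (l.map fun i => x i * y i).prod := by
  induction l with
  | nil => simp [sgnN]
  | cons i l ih =>
    rw [List.map_cons, List.prod_cons, List.map_cons, List.prod_cons, List.map_cons,
      List.prod_cons, mul_assoc, ← mul_assoc ((l.map (blk I J)).prod), prod_comm_blk]
    rw [mul_assoc, mul_assoc, ih, ← mul_assoc (blk I J i), neg_one_pow_comm, mul_assoc,
      ← mul_assoc (blk I J i), blk_mul_blk]
    rw [mul_assoc, ← mul_assoc (x i * y i), neg_one_pow_comm, mul_assoc, ← mul_assoc, ← mul_assoc,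
      ← pow_add, ← pow_add, sgnN]

theorem sgnN_eq (I J : Finset (Fin r)) (l : List (Fin r)) :
    2 * sgnN I J l + oddN I J l = oddN I J l ^ 2 + 2 * negN I J l := by
  induction l with
  | nil => simp [sgnN, oddN, negN]
  | cons i l ih =>
    simp only [sgnN, oddN, negN]
    by_cases h : IsOdd I J i
    · rw [if_pos h, if_pos h]
      nlinarith [ih]
    · rw [if_neg h, if_neg h]
      nlinarith [ih]

theorem oddN_eq (I J : Finset (Fin r)) (l : List (Fin r)) :
    oddN I J l = l.countP (fun i => decide (i ∈ I ∧ i ∉ J)) +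
      l.countP (fun i => decide (i ∉ I ∧ i ∈ J)) := by
  induction l with
  | nil => simp [oddN]
  | cons i l ih =>
    rw [oddN, ih, List.countP_cons, List.countP_cons]
    by_cases hI : i ∈ I <;> by_cases hJ : i ∈ J <;> simp [IsOdd, hI, hJ] <;> omega

theorem negN_eq (I J : Finset (Fin r)) (l : List (Fin r)) :
    negN I J l = l.countP (fun i => decide (i ∉ I ∧ i ∈ J)) := by
  induction l with
  | nil => simp [negN]
  | cons i l ih =>
    rw [negN, ih, List.countP_cons]
    by_cases hI : i ∈ I <;> by_cases hJ : i ∈ J <;> simp [hI, hJ]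
    all_goals omega

theorem countP_finRange (p : Fin r → Prop) [DecidablePred p] :
    (List.finRange r).countP (fun i => decide (p i)) = (Finset.univ.filter p).card := by
  rw [List.countP_eq_length_filter]
  rfl

theorem mon_mul_compl {I J : Finset (Fin r)} (h : I.card = J.card) :
    (mon I J : Lam B r) * mon Iᶜ Jᶜ = topT := by
  unfold mon topT
  rw [List.ofFn_eq_map, List.ofFn_eq_map, List.ofFn_eq_map, prod_mul_prod]
  have h1 := sgnN_eq I J (List.finRange r)
  rw [oddN_eq, negN_eq, countP_finRange, countP_finRange] at h1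
  have e1 : (Finset.univ.filter fun i => i ∈ I ∧ i ∉ J) = I \ J := by
    ext i; simp
  have e2 : (Finset.univ.filter fun i => i ∉ I ∧ i ∈ J) = J \ I := by
    ext i; simp [and_comm]
  rw [e1, e2] at h1
  have h2 : (I \ J).card = (J \ I).card := by
    have k1 := Finset.card_sdiff_add_card_inter I J
    have k2 := Finset.card_sdiff_add_card_inter J I
    rw [Finset.inter_comm J I] at k2
    omega
  rw [h2] at h1
  have h3 : sgnN I J (List.finRange r) = 2 * (J \ I).card ^ 2 := by
    nlinarith [h1]
  rw [h3, pow_mul, neg_one_sq, one_pow, one_mul]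

theorem mon_mul_compl_sign (I J : Finset (Fin r)) :
    ∃ s : ℤ, (s = 1 ∨ s = -1) ∧ (mon I J : Lam B r) * mon Iᶜ Jᶜ = s • topT := by
  have h1 : (mon I J : Lam B r) * mon Iᶜ Jᶜ = (-1) ^ sgnN I J (List.finRange r) * topT := by
    unfold mon topT
    rw [List.ofFn_eq_map, List.ofFn_eq_map, List.ofFn_eq_map, prod_mul_prod]
  rcases neg_one_pow_eq_or (Lam B r) (sgnN I J (List.finRange r)) with h | h
  · exact ⟨1, Or.inl rfl, by rw [h1, h, one_mul, one_smul]⟩
  · exact ⟨-1, Or.inr rfl, by rw [h1, h, neg_one_mul, neg_smul, one_smul]⟩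

end Pc0b458D
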