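import Pool.Agent.Lib.Pc0b458D.Stmt

/-!
# Monomials in the ring of a degeneration
-/

universe u

namespace Pc0b458D

open Pc0b458Z

variable {B : NumAb.{u}} {r : ℕ}

/-- the factor of `mon I J` for the index `i` -/
noncomputable def blk (I J : Finset (Fin r)) (i : Fin r) : Lam B r :=
  (if i ∈ I then x i else 1) * (if i ∈ J then y i else 1)

/-- the product over `i`, in increasing order, of the factors `x i` (if `i ∈ I`) and `y i`
(if `i ∈ J`) -/
noncomputable def mon (I J : Finset (Fin r)) : Lam B r := (List.ofFn (blk I J)).prod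

/-- the element with coefficients `c` -/
noncomputable def ev (c : Finset (Fin r) → Finset (Fin r) → B.Z) : Lam B r :=
  ∑ I, ∑ J, c I J • mon I J

/-- the coefficients of the classes of codimension `n` -/
def IsRep (B : NumAb.{u}) (r n : ℕ) (c : Finset (Fin r) → Finset (Fin r) → B.Z) : Prop :=
  ∀ I J, c I J ≠ 0 → I.card = J.card ∧ I.card ≤ n ∧ c I J ∈ B.cod (n - I.card)

/-- multiplication with the class of the polarisation, on the coefficients -/
def Lop (d : Fin r → ℕ) (c : Finset (Fin r) → Finset (Fin r) → B.Z) :
    Finset (Fin r) → Finset (Fin r) → B.Z :=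
  fun I J => B.L * c I J + ∑ i ∈ I ∩ J, (d i : B.Z) * c (I.erase i) (J.erase i)

end Pc0b458D
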