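import Pool.Agent.Lib.Pc0b458D.Compl

/-!
# Products of classes of complementary codimension
-/

universe u

namespace Pc0b458D

open Pc0b458Z

variable {B : NumAb.{u}} {r : ℕ}

theorem em_mul_sum {α : Type*} (a : Lam B r) (s : Finset α) (f : α → Lam B r) :
    a * ∑ i ∈ s, f i = ∑ i ∈ s, a * f i := Finset.mul_sum s f a

theorem em_sum_mul {α : Type*} (a : Lam B r) (s : Finset α) (f : α → Lam B r) :
    (∑ i ∈ s, f i) * a = ∑ i ∈ s, f i * a := Finset.sum_mul s f a

theorem em_sum_smul {α : Type*} (s : Finset α) (f : α → B.Z) (a : Lam B r) :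
    (∑ i ∈ s, f i) • a = ∑ i ∈ s, f i • a := Finset.sum_smul

theorem em_smul_mul_smul (a b : B.Z) (z w : Lam B r) : (a • z) * (b • w) = (a * b) • (z * w) := by
  rw [smul_mul_assoc, mul_smul_comm, smul_smul]

/-- a term of the product -/
theorem em_term {m n : ℕ} {c c' : Finset (Fin r) → Finset (Fin r) → B.Z} (h : IsRep B r m c)
    (h' : IsRep B r n c') (hmn : m + n = B.g + r) (I J I' J' : Finset (Fin r)) :
    (c I J • mon I J : Lam B r) * (c' I' J' • mon I' J') =
      if I' = Iᶜ ∧ J' = Jᶜ then (c I J * c' I' J') • (topT : Lam B r) else 0 := by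
  rw [em_smul_mul_smul]
  by_cases h0 : c I J = 0
  · rw [h0, zero_mul, zero_smul, zero_smul, ite_self]
  by_cases h0' : c' I' J' = 0
  · rw [h0', mul_zero, zero_smul, zero_smul, ite_self]
  obtain ⟨a1, a2, a3⟩ := h I J h0
  obtain ⟨b1, b2, b3⟩ := h' I' J' h0'
  by_cases hc : I' = Iᶜ ∧ J' = Jᶜ
  · rw [if_pos hc, hc.1, hc.2, mon_mul_compl a1]
  rw [if_neg hc]
  by_cases hx : ∃ i, i ∈ I ∧ i ∈ I'
  · obtain ⟨i, hi, hi'⟩ := hx
    rw [mon_mul_mon_x hi hi', smul_zero]
  by_cases hy : ∃ i, i ∈ J ∧ i ∈ J'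
  · obtain ⟨i, hi, hi'⟩ := hy
    rw [mon_mul_mon_y hi hi', smul_zero]
  have hI : I' ⊆ Iᶜ := fun i hi => Finset.mem_compl.2 fun h => hx ⟨i, h, hi⟩
  have hJ : J' ⊆ Jᶜ := fun i hi => Finset.mem_compl.2 fun h => hy ⟨i, h, hi⟩
  have kI : Iᶜ.card = r - I.card := by rw [Finset.card_compl, Fintype.card_fin]
  have kJ : Jᶜ.card = r - J.card := by rw [Finset.card_compl, Fintype.card_fin]
  have lI : I.card ≤ r := by simpa using Finset.card_le_univ I
  have cI := Finset.card_le_card hI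
  have hlt : I.card + I'.card < r := by
    by_contra hge
    push Not at hge
    refine hc ⟨Finset.eq_of_subset_of_card_le hI ?_, Finset.eq_of_subset_of_card_le hJ ?_⟩
    · rw [kI]; omega
    · rw [kJ]; omega
  have hz : c I J * c' I' J' = 0 := by
    refine B.num _ _ (B.mul_mem _ _ _ a3 _ b3) fun j hj => ?_
    omega
  rw [hz, zero_smul]

theorem ev_mul_ev {m n : ℕ} {c c' : Finset (Fin r) → Finset (Fin r) → B.Z} (h : IsRep B r m c)
    (h' : IsRep B r n c') (hmn : m + n = B.g + r) :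
    ev c * ev c' = (∑ I, ∑ J, c I J * c' Iᶜ Jᶜ) • (topT : Lam B r) := by
  rw [ev, em_sum_mul, em_sum_smul]
  refine Finset.sum_congr rfl fun I _ => ?_
  rw [em_sum_mul, em_sum_smul]
  refine Finset.sum_congr rfl fun J _ => ?_
  rw [ev, em_mul_sum, Finset.sum_eq_single Iᶜ, em_mul_sum, Finset.sum_eq_single Jᶜ]
  · rw [em_term h h' hmn, if_pos ⟨rfl, rfl⟩]
  · intro J' _ hJ'
    rw [em_term h h' hmn, if_neg fun hc => hJ' hc.2]
  · intro hJ
    exact absurd (Finset.mem_univ _) hJ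
  · intro I' _ hI'
    rw [em_mul_sum]
    refine Finset.sum_eq_zero fun J' _ => ?_
    rw [em_term h h' hmn, if_neg fun hc => hI' hc.1]
  · intro hI
    exact absurd (Finset.mem_univ _) hI

end Pc0b458D
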