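import Pool.Agent.Lib.Pc0b458D.LM

/-!
# The extension of a graded group with a Lefschetz operator by a variable of square zero
-/

universe u

namespace Pc0b458D

namespace LM

variable (M : LM.{u})

theorem iter_mem (k n : ℕ) {x : M.V} (hx : x ∈ M.cod n) {m : ℕ} (hm : n + k = m) :
    M.L^[k] x ∈ M.cod m := by
  induction k generalizing m with
  | zero =>
    obtain rfl : n = m := by omega
    exact hx
  | succ k ih =>
    rw [Function.iterate_succ_apply']
    have := M.L_mem (n + k) _ (ih rfl)
    rwa [show n + k + 1 = m by omega] at this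

theorem iter_add (k : ℕ) (x y : M.V) : M.L^[k] (x + y) = M.L^[k] x + M.L^[k] y := by
  induction k with
  | zero => rfl
  | succ k ih => rw [Function.iterate_succ_apply', Function.iterate_succ_apply',
      Function.iterate_succ_apply', ih, map_add]

theorem iter_zero (k : ℕ) : M.L^[k] 0 = 0 := by
  induction k with
  | zero => rfl
  | succ k ih => rw [Function.iterate_succ_apply', ih, map_zero]

theorem iter_neg (k : ℕ) (x : M.V) : M.L^[k] (-x) = -M.L^[k] x := by
  have := M.iter_add k x (-x)
  rw [add_neg_cancel, iter_zero] at this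
  exact eq_neg_of_add_eq_zero_right this.symm

theorem iter_nsmul (k N : ℕ) (x : M.V) : M.L^[k] (N • x) = N • M.L^[k] x := by
  induction k with
  | zero => rfl
  | succ k ih => rw [Function.iterate_succ_apply', Function.iterate_succ_apply', ih, map_nsmul]

theorem iter_comp (j k : ℕ) (x : M.V) {l : ℕ} (h : j + k = l) :
    M.L^[j] (M.L^[k] x) = M.L^[l] x := by
  rw [← h, Function.iterate_add_apply]

theorem adj_iter (k : ℕ) (u v : M.V) : M.B (M.L^[k] u) v = M.B u (M.L^[k] v) := by
  induction k generalizing u v with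
  | zero => rfl
  | succ k ih => rw [Function.iterate_succ_apply', M.adj, ih, ← Function.iterate_succ_apply]

theorem B_nsmul_left (N : ℕ) (u v : M.V) : M.B (N • u) v = N * M.B u v := by
  rw [map_nsmul, AddMonoidHom.nsmul_apply, nsmul_eq_mul]

theorem B_nsmul_right (N : ℕ) (u v : M.V) : M.B u (N • v) = N * M.B u v := by
  rw [map_nsmul, nsmul_eq_mul]

variable {M}

theorem tf {N : ℕ} (hN : 0 < N) {n : ℕ} {x : M.V} (hx : x ∈ M.cod n) (h : N • x = 0) : x = 0 := by
  rcases Nat.lt_or_ge M.g n with hn | hn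
  · exact M.top n hn x hx
  · refine M.nondeg n hn x hx fun y _ => ?_
    have h1 := M.B_nsmul_left N x y
    rw [h, map_zero, AddMonoidHom.zero_apply] at h1
    have hN' : (N : ℚ) ≠ 0 := by exact_mod_cast hN.ne'
    exact (mul_eq_zero.1 h1.symm).resolve_left hN'

theorem inj {n : ℕ} (hn : 2 * n ≤ M.g) {x : M.V} (hx : x ∈ M.cod n)
    (h : M.L^[M.g - 2 * n] x = 0) : x = 0 := by
  refine M.nondeg n (by omega) x hx fun y hy => ?_
  obtain ⟨N, hN, z, -, hz⟩ := M.lef n hn y hy
  have h1 := M.B_nsmul_right N x y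
  rw [hz, ← adj_iter, h, map_zero, AddMonoidHom.zero_apply] at h1
  have hN' : (N : ℚ) ≠ 0 := by exact_mod_cast hN.ne'
  exact (mul_eq_zero.1 h1.symm).resolve_left hN'

theorem extCod_zero_iff (z : M.V × M.V) : z ∈ M.extCod 0 ↔ z.1 ∈ M.cod 0 ∧ z.2 = 0 := by
  change z ∈ (M.cod 0).prod ⊥ ↔ _
  rw [AddSubgroup.mem_prod, AddSubgroup.mem_bot]

theorem extCod_succ_iff (n : ℕ) (z : M.V × M.V) :
    z ∈ M.extCod (n + 1) ↔ z.1 ∈ M.cod (n + 1) ∧ z.2 ∈ M.cod n := by
  change z ∈ (M.cod (n + 1)).prod (M.cod n) ↔ _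
  rw [AddSubgroup.mem_prod]

theorem extCod_fst {n : ℕ} {z : M.V × M.V} (hz : z ∈ M.extCod n) : z.1 ∈ M.cod n := by
  rcases n with _ | n
  · exact ((extCod_zero_iff z).1 hz).1
  · exact ((extCod_succ_iff n z).1 hz).1

theorem extCod_left {n : ℕ} {u : M.V} (hu : u ∈ M.cod n) : (u, (0 : M.V)) ∈ M.extCod n := by
  rcases n with _ | n
  · exact (extCod_zero_iff _).2 ⟨hu, rfl⟩
  · exact (extCod_succ_iff n _).2 ⟨hu, zero_mem _⟩

theorem extCod_right {n : ℕ} {v : M.V} (hv : v ∈ M.cod n) : ((0 : M.V), v) ∈ M.extCod (n + 1) :=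
  (extCod_succ_iff n _).2 ⟨zero_mem _, hv⟩

variable (M)

@[simp] theorem extL_fst (d : ℕ) (z : M.V × M.V) : (M.extL d z).1 = M.L z.1 := rfl

@[simp] theorem extL_snd (d : ℕ) (z : M.V × M.V) : (M.extL d z).2 = M.L z.2 + d • z.1 := rfl

theorem extB_apply (z w : M.V × M.V) : M.extB z w = M.B z.1 w.2 + M.B z.2 w.1 := rfl

theorem extL_iter_fst (d k : ℕ) (z : M.V × M.V) : ((M.extL d)^[k] z).1 = M.L^[k] z.1 := by
  induction k with
  | zero => rfl
  | succ k ih => rw [Function.iterate_succ_apply', extL_fst, ih, Function.iterate_succ_apply']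

theorem extL_iter_snd (d k : ℕ) (z : M.V × M.V) :
    ((M.extL d)^[k + 1] z).2 = M.L^[k + 1] z.2 + ((k + 1) * d) • M.L^[k] z.1 := by
  induction k with
  | zero => simp
  | succ k ih =>
    rw [Function.iterate_succ_apply', extL_snd, ih, extL_iter_fst, map_add, map_nsmul,
      ← Function.iterate_succ_apply' M.L (k + 1), ← Function.iterate_succ_apply' M.L k,
      add_assoc, ← add_nsmul]
    congr 2
    ring

/-- the extension by one variable `D` of square zero, with the Lefschetz operator `L + d D` -/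
noncomputable def ext (d : ℕ) (hd : 0 < d) : LM.{u} where
  V := M.V × M.V
  g := M.g + 1
  cod := M.extCod
  L := M.extL d
  B := M.extB
  L_mem n z hz := by
    rcases n with _ | n
    · rw [extCod_zero_iff] at hz
      refine (extCod_succ_iff 0 _).2 ⟨M.L_mem 0 _ hz.1, ?_⟩
      rw [extL_snd, hz.2, map_zero, zero_add]
      exact nsmul_mem hz.1 d
    · rw [extCod_succ_iff] at hz
      refine (extCod_succ_iff (n + 1) _).2 ⟨M.L_mem _ _ hz.1, ?_⟩
      rw [extL_snd]
      exact add_mem (M.L_mem _ _ hz.2) (nsmul_mem hz.1 d)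
  symm z w := by
    rw [extB_apply, extB_apply, M.symm z.1 w.2, M.symm z.2 w.1]
    ring
  adj z w := by
    rw [extB_apply, extB_apply, extL_fst, extL_snd, extL_fst, extL_snd, map_add, map_add,
      AddMonoidHom.add_apply, M.adj, M.adj, B_nsmul_left, B_nsmul_right]
    ring
  top n hn z hz := by
    obtain ⟨m, rfl⟩ : ∃ m, n = m + 1 := ⟨n - 1, by omega⟩
    rw [extCod_succ_iff] at hz
    exact Prod.ext (M.top _ (by omega) _ hz.1) (M.top _ (by omega) _ hz.2)
  nondeg n hn z hz h := by
    rcases n with _ | m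
    · rw [extCod_zero_iff] at hz
      refine Prod.ext (M.nondeg 0 (by omega) _ hz.1 fun w hw => ?_) hz.2
      have := h (0, w) (by simpa using extCod_right hw)
      simpa [extB_apply] using this
    · rw [extCod_succ_iff] at hz
      have h2 : z.2 = 0 := by
        refine M.nondeg m (by omega) _ hz.2 fun w hw => ?_
        have := h (w, 0) (by
          rw [show M.g + 1 - (m + 1) = M.g - m by omega]
          exact extCod_left hw)
        simpa [extB_apply] using this
      refine Prod.ext ?_ h2
      rcases Nat.lt_or_ge M.g (m + 1) with h1 | h1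
      · exact M.top _ h1 _ hz.1
      · refine M.nondeg (m + 1) h1 _ hz.1 fun w hw => ?_
        have := h (0, w) (by
          rw [show M.g + 1 - (m + 1) = M.g - (m + 1) + 1 by omega]
          exact extCod_right hw)
        simpa [extB_apply] using this
  lef n hn z hz := by
    rcases Nat.eq_or_lt_of_le hn with h0 | h0
    · refine ⟨1, Nat.one_pos, z, ?_, ?_⟩
      · rwa [show M.g + 1 - n = n by omega] at hz
      · rw [show M.g + 1 - 2 * n = 0 by omega, one_smul]
        rfl
    · obtain ⟨s, hs⟩ : ∃ s, M.g = 2 * n + s := ⟨M.g - 2 * n, by omega⟩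
      have hr : M.g + 1 - 2 * n = s + 1 := by omega
      rw [show M.g + 1 - n = (M.g - n) + 1 by omega, extCod_succ_iff] at hz
      obtain ⟨N2, hN2, w', hw', hv⟩ := M.lef n (by omega) z.2 hz.2
      rw [show M.g - 2 * n = s by omega] at hv
      rw [hr]
      rcases n with _ | m
      · refine ⟨(s + 1) * d * N2, by positivity, (w', 0), extCod_left hw', ?_⟩
        apply Prod.ext
        · rw [extL_iter_fst, Prod.smul_fst, M.top _ (by omega) _ hz.1, smul_zero,
            M.top _ (by omega) _ (M.iter_mem (s + 1) 0 hw' rfl)]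
        · rw [extL_iter_snd, Prod.smul_snd, iter_zero, zero_add, mul_smul, hv]
      · obtain ⟨N1, hN1, w, hw, hu⟩ := M.lef m (by omega) z.1 (by
          rw [show M.g - m = M.g - (m + 1) + 1 by omega]
          exact hz.1)
        rw [show M.g - 2 * m = s + 2 by omega] at hu
        obtain ⟨N3, hN3, w1, hw1, hw3⟩ := M.lef m (by omega) (M.L^[s + 1] w')
          (M.iter_mem _ _ hw' (by omega))
        rw [show M.g - 2 * m = s + 2 by omega] at hw3
        set w0 := N3 • w' - M.L w1 with hw0
        have hw0m : w0 ∈ M.cod (m + 1) := sub_mem (nsmul_mem hw' N3) (M.L_mem m _ hw1)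
        have hLw0 : M.L^[s + 1] w0 = 0 := by
          rw [hw0, sub_eq_add_neg, iter_add, iter_nsmul, hw3, iter_neg,
            ← Function.iterate_succ_apply, add_neg_cancel]
        have hv' : (N2 * N3) • z.2 = M.L^[s] w0 + M.L^[s + 1] w1 := by
          rw [mul_comm, mul_smul, hv, ← iter_nsmul, hw0, sub_eq_add_neg, iter_add, iter_neg,
            ← Function.iterate_succ_apply, neg_add_cancel_right]
        refine ⟨(s + 1) * d * N2 * N3 * N1, by positivity,
          (((s + 1) * d * N2 * N3) • M.L w + N1 • w0,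
            ((s + 1) * d * N1) • w1 - ((s + 1) * d * ((s + 1) * d * N2 * N3)) • w), ?_, ?_⟩
        · refine (extCod_succ_iff m _).2 ⟨?_, ?_⟩
          · exact add_mem (nsmul_mem (M.L_mem m _ hw) _) (nsmul_mem hw0m _)
          · exact sub_mem (nsmul_mem hw1 _) (nsmul_mem hw _)
        · apply Prod.ext
          · rw [extL_iter_fst, Prod.smul_fst, iter_add, iter_nsmul, iter_nsmul, hLw0, smul_zero,
              add_zero, ← Function.iterate_succ_apply, mul_smul, hu]
          · rw [extL_iter_snd, Prod.smul_snd, sub_eq_add_neg, iter_add, iter_neg, iter_nsmul,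
              iter_nsmul, iter_add, iter_nsmul, iter_nsmul, ← Function.iterate_succ_apply]
            have h1 : ((s + 1) * d * N2 * N3 * N1) • z.2 =
                ((s + 1) * d * N1) • ((N2 * N3) • z.2) := by
              rw [← mul_smul]
              congr 1
              ring
            rw [h1, hv', smul_add, smul_add, ← mul_smul, ← mul_smul]
            abel

end LM

end Pc0b458D
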