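import Pool.Agent.Lib.Pc0b458D.Defs

/-!
# The coefficient of the top monomial
-/

universe u

namespace Pc0b458D

open Pc0b458Z

namespace TauAux

variable {B : NumAb.{u}} {r : ℕ}

/-- products of `n` vectors -/
def W (n : ℕ) (z : Lam B r) : Prop :=
  ∃ l : List (Fin r × Bool → B.Z), l.length = n ∧ z = (l.map iota).prod

theorem W_one : W 0 (1 : Lam B r) := ⟨[], rfl, rfl⟩

theorem W_mul {m n : ℕ} {z w : Lam B r} (hz : W m z) (hw : W n w) : W (m + n) (z * w) := by
  obtain ⟨l, rfl, rfl⟩ := hz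
  obtain ⟨l', rfl, rfl⟩ := hw
  exact ⟨l ++ l', by simp, by simp⟩

theorem W_iota (v : Fin r × Bool → B.Z) : W 1 (iota v) := ⟨[v], rfl, by simp⟩

theorem W_blk (I J : Finset (Fin r)) (i : Fin r) :
    W ((if i ∈ I then 1 else 0) + (if i ∈ J then 1 else 0)) (blk I J i : Lam B r) := by
  unfold blk
  apply W_mul
  · split_ifs
    · exact W_iota _
    · exact W_one
  · split_ifs
    · exact W_iota _
    · exact W_one

theorem W_ofFn {m : ℕ} (f : Fin m → Lam B r) (k : Fin m → ℕ) (h : ∀ i, W (k i) (f i)) :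
    W (∑ i, k i) (List.ofFn f).prod := by
  induction m with
  | zero => simpa using W_one
  | succ m ih =>
    rw [Fin.sum_univ_succ, List.ofFn_succ, List.prod_cons]
    exact W_mul (h 0) (ih _ _ fun i => h _)

theorem W_mon (I J : Finset (Fin r)) : W (I.card + J.card) (mon I J : Lam B r) := by
  have h := W_ofFn (B := B) (blk I J) _ (W_blk I J)
  rw [Finset.sum_add_distrib] at h
  simp only [Finset.sum_ite_mem, Finset.univ_inter, Finset.sum_const, smul_eq_mul, mul_one] at h
  exact h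

/-- the order of the variables -/
def eqv (r : ℕ) : Fin r × Bool ≃ Fin (r * 2) :=
  (Equiv.prodCongr (Equiv.refl _) (finTwoEquiv.trans Equiv.boolNot).symm).trans finProdFinEquiv

/-- the basis -/
noncomputable def bas (B : NumAb.{u}) (r : ℕ) :
    Module.Basis (Fin (r * 2)) B.Z (Fin r × Bool → B.Z) :=
  (Pi.basisFun B.Z (Fin r × Bool)).reindex (eqv r)

/-- the alternating maps -/
noncomputable def fam (B : NumAb.{u}) (r : ℕ) (n : ℕ) :
    (Fin r × Bool → B.Z) [⋀^Fin n]→ₗ[B.Z] B.Z :=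
  if h : n = r * 2 then h ▸ (bas B r).det else 0

theorem fam_self : fam B r (r * 2) = (bas B r).det := by
  simp [fam]

theorem fam_ne {n : ℕ} (h : n ≠ r * 2) : fam B r n = 0 := by
  simp [fam, h]

/-- the functional -/
noncomputable def tau (B : NumAb.{u}) (r : ℕ) : Lam B r →ₗ[B.Z] B.Z :=
  ExteriorAlgebra.liftAlternating (fam B r)

theorem tau_ofFn {n : ℕ} (v : Fin n → Fin r × Bool → B.Z) :
    tau B r (List.ofFn fun i => iota (v i)).prod = fam B r n v := by
  have h := ExteriorAlgebra.liftAlternating_apply_ιMulti (R := B.Z) (fam B r) v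
  rw [ExteriorAlgebra.ιMulti_apply] at h
  exact h

theorem tau_W {n : ℕ} {z : Lam B r} (hz : W n z) (h : n ≠ r * 2) : tau B r z = 0 := by
  obtain ⟨l, rfl, rfl⟩ := hz
  have h1 : l.map iota = List.ofFn fun i : Fin l.length => (iota (l.get i) : Lam B r) := by
    conv_lhs => rw [← List.ofFn_get l]
    rw [List.map_ofFn]
    rfl
  rw [h1, tau_ofFn, fam_ne h]
  rfl

theorem bas_eqv (p : Fin r × Bool) : bas B r (eqv r p) = Pi.single p 1 := by
  simp [bas]

theorem eqv_true (i : Fin r) : (eqv r (i, true) : ℕ) = i * 2 := by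
  simp [eqv, finProdFinEquiv, finTwoEquiv, Equiv.boolNot, mul_comm]

theorem eqv_false (i : Fin r) : (eqv r (i, false) : ℕ) = i * 2 + 1 := by
  simp [eqv, finProdFinEquiv, finTwoEquiv, Equiv.boolNot, mul_comm, add_comm]

theorem topT_eq : (topT : Lam B r) = (List.ofFn fun k => iota (bas B r k)).prod := by
  rw [List.ofFn_mul]
  unfold topT
  rw [List.prod_flatten, List.map_ofFn]
  congr 2
  funext i
  have h0 : ∀ h : (i : ℕ) * 2 + ((0 : Fin 2) : ℕ) < r * 2,
      bas B r ⟨(i : ℕ) * 2 + ((0 : Fin 2) : ℕ), h⟩ = Pi.single (i, true) 1 := by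
    intro h
    rw [← bas_eqv]
    congr 1
    ext
    simp [eqv_true]
  have h1 : ∀ h : (i : ℕ) * 2 + ((1 : Fin 2) : ℕ) < r * 2,
      bas B r ⟨(i : ℕ) * 2 + ((1 : Fin 2) : ℕ), h⟩ = Pi.single (i, false) 1 := by
    intro h
    rw [← bas_eqv]
    congr 1
    ext
    simp [eqv_false]
  rw [Function.comp_apply, List.ofFn_succ, List.ofFn_succ, List.ofFn_zero, List.prod_cons,
    List.prod_cons, List.prod_nil, mul_one]
  rw [h0, x, y]
  congr 2
  exact (h1 _).symm

end TauAux

open TauAux in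
theorem exists_tau (B : NumAb.{u}) (r : ℕ) : ∃ τ : Lam B r →ₗ[B.Z] B.Z, τ topT = 1 ∧
    ∀ I J I' J' : Finset (Fin r), I.card + J.card + I'.card + J'.card < 2 * r →
      τ (mon I J * mon I' J') = 0 := by
  refine ⟨tau B r, ?_, ?_⟩
  · rw [topT_eq, tau_ofFn, fam_self]
    exact (bas B r).det_self
  · intro I J I' J' h
    exact tau_W (W_mul (W_mon I J) (W_mon I' J')) (by omega)

end Pc0b458D
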