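import Pool.Agent.Lib.Pc0b458D.Compl
import Pool.Agent.Lib.Pc0b458D.Tau

/-!
# The coefficients are unique
-/

universe u

namespace Pc0b458D

open Pc0b458Z

variable {B : NumAb.{u}} {r : ℕ}

theorem lam_sum_mul (f : Finset (Fin r) → Lam B r) (w : Lam B r) :
    (∑ I, f I) * w = ∑ I, f I * w :=
  Finset.sum_mul _ _ _

theorem tau_eq_zero {τ : Lam B r →ₗ[B.Z] B.Z}
    (hτ : ∀ I J I' J' : Finset (Fin r), I.card + J.card + I'.card + J'.card < 2 * r →
      τ (mon I J * mon I' J') = 0) {I J I0 J0 : Finset (Fin r)} (h : ¬ (I = I0 ∧ J = J0)) :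
    τ (mon I J * mon I0ᶜ J0ᶜ) = 0 := by
  by_cases hI : I ⊆ I0
  · by_cases hJ : J ⊆ J0
    · apply hτ
      have h1 := Finset.card_le_card hI
      have h2 := Finset.card_le_card hJ
      have h3 := Finset.card_compl_add_card I0
      have h4 := Finset.card_compl_add_card J0
      rw [Fintype.card_fin] at h3 h4
      have h5 : ¬ (I.card = I0.card ∧ J.card = J0.card) := by
        rintro ⟨e1, e2⟩
        exact h ⟨Finset.eq_of_subset_of_card_le hI e1.ge, Finset.eq_of_subset_of_card_le hJ e2.ge⟩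
      omega
    · obtain ⟨j, hj1, hj2⟩ := Finset.not_subset.1 hJ
      rw [mon_mul_mon_y hj1 (by simpa using hj2), map_zero]
  · obtain ⟨i, hi1, hi2⟩ := Finset.not_subset.1 hI
    rw [mon_mul_mon_x hi1 (by simpa using hi2), map_zero]

theorem ev_inj_all {c : Finset (Fin r) → Finset (Fin r) → B.Z} (h : ev c = 0) :
    ∀ I J, c I J = 0 := by
  intro I0 J0
  obtain ⟨τ, hτ1, hτ2⟩ := exists_tau B r
  obtain ⟨s, hs, hmon⟩ := mon_mul_compl_sign (B := B) I0 J0
  have h1 : τ (ev c * mon I0ᶜ J0ᶜ) = 0 := by rw [h, zero_mul, map_zero]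
  have h2 : τ (ev c * mon I0ᶜ J0ᶜ) =
      ∑ I, ∑ J, c I J • τ (mon I J * mon I0ᶜ J0ᶜ) := by
    rw [ev, lam_sum_mul, map_sum]
    refine Finset.sum_congr rfl fun I _ => ?_
    rw [lam_sum_mul, map_sum]
    refine Finset.sum_congr rfl fun J _ => ?_
    rw [smul_mul_assoc, map_smul]
  have h3 : ∑ I, ∑ J, c I J • τ (mon I J * mon I0ᶜ J0ᶜ) = c I0 J0 • τ (s • topT) := by
    rw [Finset.sum_eq_single I0, Finset.sum_eq_single J0, hmon]
    · intro J _ hJ
      rw [tau_eq_zero hτ2 (fun h => hJ h.2), smul_zero]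
    · intro hJ
      exact absurd (Finset.mem_univ _) hJ
    · intro I _ hI
      refine Finset.sum_eq_zero fun J _ => ?_
      rw [tau_eq_zero hτ2 (fun h => hI h.1), smul_zero]
    · intro hI
      exact absurd (Finset.mem_univ _) hI
  rw [h2, h3, map_zsmul, hτ1] at h1
  rcases hs with rfl | rfl
  · simpa using h1
  · simpa using h1

theorem ev_inj {c : Finset (Fin r) → Finset (Fin r) → B.Z}
    (hc : ∀ I J, c I J ≠ 0 → I.card = J.card) (h : ev c = 0) : ∀ I J, c I J = 0 := by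
  exact ev_inj_all h

theorem topT_inj {b : B.Z} (h : b • (topT : Lam B r) = 0) : b = 0 := by
  obtain ⟨τ, hτ1, -⟩ := exists_tau B r
  have h1 : τ (b • (topT : Lam B r)) = 0 := by rw [h, map_zero]
  rw [map_smul, hτ1, smul_eq_mul, mul_one] at h1
  exact h1

end Pc0b458D
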