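import Mathlib

/-!
# Graded groups with a Lefschetz operator and a form
-/

universe u

namespace Pc0b458D

/-- A graded group of dimension `g` with a Lefschetz operator `L` and a symmetric form `B`. -/
structure LM where
  V : Type u
  [grp : AddCommGroup V]
  g : ℕ
  cod : ℕ → AddSubgroup V
  L : V →+ V
  B : V →+ V →+ ℚ
  L_mem : ∀ n, ∀ x ∈ cod n, L x ∈ cod (n + 1)
  symm : ∀ u v, B u v = B v u
  adj : ∀ u v, B (L u) v = B u (L v)
  top : ∀ n, g < n → ∀ x ∈ cod n, x = 0
  nondeg : ∀ n, n ≤ g → ∀ x ∈ cod n, (∀ y ∈ cod (g - n), B x y = 0) → x = 0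
  lef : ∀ n, 2 * n ≤ g → ∀ z ∈ cod (g - n), ∃ N : ℕ, 0 < N ∧ ∃ x ∈ cod n,
    N • z = L^[g - 2 * n] x

attribute [instance] LM.grp

namespace LM

variable (M : LM.{u})

/-- the positivity of the form on the primitive elements of degree `n` -/
def HR (n : ℕ) : Prop :=
  ∀ x ∈ M.cod n, M.L^[M.g - 2 * n + 1] x = 0 → x ≠ 0 →
    0 < (-1 : ℚ) ^ n * M.B x (M.L^[M.g - 2 * n] x)

/-- the degree `n` part of the extension by one variable of square zero: `(u, v)` is `u + v D` -/
def extCod : ℕ → AddSubgroup (M.V × M.V)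
  | 0 => (M.cod 0).prod ⊥
  | n + 1 => (M.cod (n + 1)).prod (M.cod n)

/-- the Lefschetz operator `L + d D` -/
def extL (d : ℕ) : M.V × M.V →+ M.V × M.V where
  toFun z := (M.L z.1, M.L z.2 + d • z.1)
  map_zero' := by simp
  map_add' z w := by
    ext
    · simp
    · simp only [Prod.snd_add, map_add, Prod.fst_add, smul_add]
      abel

/-- the form -/
def extB : M.V × M.V →+ M.V × M.V →+ ℚ where
  toFun z :=
    { toFun := fun w => M.B z.1 w.2 + M.B z.2 w.1
      map_zero' := by simp
      map_add' := fun w w' => by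
        simp only [Prod.snd_add, map_add, Prod.fst_add]
        ring }
  map_zero' := by
    ext w <;> simp
  map_add' z z' := by
    apply AddMonoidHom.ext
    intro w
    simp only [Prod.fst_add, map_add, AddMonoidHom.add_apply, Prod.snd_add, AddMonoidHom.coe_mk,
      ZeroHom.coe_mk]
    ring

end LM

end Pc0b458D
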