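import Pool.Agent.Lib.Pc0b458G.Stmt

/-!
# Semistable reduction of an abelian variety

The setting of `MP_c0b458_ag`. Let `X` be a polarised abelian variety over the field of fractions of
a discrete valuation ring, with semistable reduction: the connected component of the special fibre of
the Neron model is an extension of an abelian variety `B` by a split torus of rank `r`. Let `M` be the
group of characters of the torus and `Y` the group of periods. The class of a cycle of codimension
`n` on `X` specialises to an element of the direct sum over `a` of the spaces
`⋀^a M ⊗ ⋀^a Hom(Y, ℚ) ⊗ Z^(n-a)(B)`. For `B = 0` this is the class of the tropicalisation of the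
cycle, a tropical cycle on the real torus `Hom(M, ℝ) / Y`.
-/

universe u

namespace Pc0b458D

open Pc0b458Z

/-- the ring structure of the exterior algebra -/
@[instance_reducible] noncomputable def ringExt (R V : Type u) [CommRing R] [AddCommGroup V]
    [Module R V] : Ring (ExteriorAlgebra R V) := inferInstance

/-- the algebra structure of the exterior algebra -/
@[instance_reducible] noncomputable def algExt (R V : Type u) [CommRing R] [AddCommGroup V]
    [Module R V] : Algebra R (ExteriorAlgebra R V) := inferInstance

/-- the homomorphism of exterior algebras given by a linear map -/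
noncomputable def mapExt {R V : Type u} [CommRing R] [AddCommGroup V] [Module R V]
    (f : V →ₗ[R] V) (z : ExteriorAlgebra R V) : ExteriorAlgebra R V :=
  ExteriorAlgebra.map f z

/-- the linear map with `x i ↦ x i + y i` and `y i ↦ y i`, for the basis of the `x i` and `y i` -/
def monoOne (R : Type u) [CommRing R] (r : ℕ) : (Fin r × Bool → R) →ₗ[R] (Fin r × Bool → R) :=
  LinearMap.pi fun p => (LinearMap.proj p : (Fin r × Bool → R) →ₗ[R] R) +
    (if p.2 then 0 else LinearMap.proj (p.1, true))

/-- The exterior algebra, over the ring of cycles on `B`, with the generators `x i` and `y i`,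
`i < r`. -/
def Lam (B : NumAb.{u}) (r : ℕ) : Type u := ExteriorAlgebra B.Z (Fin r × Bool → B.Z)

noncomputable instance instRing (B : NumAb.{u}) (r : ℕ) : Ring (Lam B r) := ringExt _ _

noncomputable instance instAlgebra (B : NumAb.{u}) (r : ℕ) : Algebra B.Z (Lam B r) := algExt _ _

section

variable {B : NumAb.{u}} {r : ℕ}

/-- the linear map to the exterior algebra -/
noncomputable def iota : (Fin r × Bool → B.Z) →ₗ[B.Z] Lam B r := ExteriorAlgebra.ι B.Z

/-- the generators `x i`: a basis of `M ⊗ ℚ` -/
noncomputable def x (i : Fin r) : Lam B r := iota (Pi.single (i, true) 1)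

/-- the generators `y i`: the images of the `x i` under the monodromy map from `M ⊗ ℚ` to
`Hom(Y, ℚ)` -/
noncomputable def y (i : Fin r) : Lam B r := iota (Pi.single (i, false) 1)

/-- the monodromy: the ring homomorphism which is the identity on the ring of cycles on `B`, with
`x i ↦ x i + y i` and `y i ↦ y i` -/
noncomputable def mono (z : Lam B r) : Lam B r := mapExt (monoOne B.Z r) z

/-- The classes of codimension `n`: the sums of the classes
`b * x i_1 * ... * x i_a * y j_1 * ... * y j_a` where `b` is the class of a cycle of codimension
`n - a` on `B`. -/
inductive Typ : ℕ → Lam B r → Prop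
  | base {k : ℕ} {b : B.Z} (hb : b ∈ B.cod k) (l m : List (Fin r)) (h : l.length = m.length) :
      Typ (k + l.length) (b • ((l.map x).prod * (m.map y).prod))
  | add {n : ℕ} {z w : Lam B r} (hz : Typ n z) (hw : Typ n w) : Typ n (z + w)

/-- the class of the polarisation, for a basis `x i` of `M ⊗ ℚ` in which its form is diagonal -/
noncomputable def polT (d : Fin r → ℕ) : Lam B r :=
  algebraMap B.Z (Lam B r) B.L + ∑ i, (d i : B.Z) • (x i * y i)

/-- the product of all `x i * y i` -/
noncomputable def topT : Lam B r := (List.ofFn fun i : Fin r => x i * y i).prod

end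

/-- `X` has semistable reduction with abelian part `B` (for some discrete valuation of the field over
which `X` is defined). Cycles on `X` specialise, and this is compatible with intersections and
degrees. -/
structure Degeneration (X B : NumAb.{u}) where
  /-- the rank of the torus -/
  r : ℕ
  dim : X.g = B.g + r
  /-- the coefficients of the form of the polarisation of `X`, for a basis of `M ⊗ ℚ` in which it is
  diagonal with integral coefficients -/
  d : Fin r → ℕ
  d_pos : ∀ i, 0 < d i
  /-- `sp n x z`: some cycle of codimension `n` on `X` has the numerical class `x`, and its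
  specialisation has the class `z` -/
  sp : ℕ → X.Z → Lam B r → Prop
  ex : ∀ n, ∀ x ∈ X.cod n, ∃ z, sp n x z
  typ : ∀ n x z, sp n x z → Typ n z
  /-- the class of a cycle is invariant under the monodromy -/
  inv : ∀ n x z, sp n x z → mono z = z
  one : sp 0 1 1
  pol : sp 1 X.L (polT d)
  add : ∀ n x z x' z', sp n x z → sp n x' z' → sp n (x + x') (z + z')
  mul : ∀ m n x z x' z', sp m x z → sp n x' z' → sp (m + n) (x * x') (z * z')
  /-- the degree of the class `topT`, divided by its degree over `B` -/
  c : ℚ
  c_pos : 0 < c
  deg : ∀ x b, sp X.g x (b • topT) → X.deg x = c * B.deg b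
  /-- a primitive class is the class of a cycle whose specialisation is primitive -/
  prim : ∀ n, 2 * n ≤ X.g → ∀ x ∈ X.cod n, X.L ^ (X.g - 2 * n + 1) * x = 0 →
    ∃ z, sp n x z ∧ polT d ^ (X.g - 2 * n + 1) * z = 0

end Pc0b458D
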