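import Pool.Agent.Lib.Pc0b458G.Main
import Pool.Agent.Lib.Pc0b458D.Stmt

/-!
# Codimension at most two
-/

universe u

namespace Pc0b458D

open Pc0b458Z Pc0b458G

/-- the product with a point -/
def prodPoint (B : NumAb.{u}) : Product B B where
  b := 0
  dim := rfl
  pr := id
  pr_one := rfl
  pr_add := fun _ _ => rfl
  pr_mul := fun _ _ => rfl
  pr_mem := fun _ _ h => h
  M := 0
  L_eq := by rw [add_zero]; rfl
  M_pow := by rw [zero_add, pow_one]
  degB := 1
  degB_pos := one_pos
  deg_eq := fun x _ => by rw [pow_zero, mul_one, one_mul]; rfl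

theorem positive_low (B : NumAb.{u}) (A : CMAb) (S : Specialisation B A) {m : ℕ} (hm : m ≤ 2)
    (hg : 2 * m ≤ B.g) : B.Positive m := by
  intro x hx hL h0
  obtain ⟨y, hy⟩ := S.ex m _ ((prodPoint B).pr_mem m x hx)
  exact main (prodPoint B) S hg hx hL h0 hy (GenA.base hm (S.alg _ _ _ hy))

end Pc0b458D
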