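import Pool.Agent.Lib.Pc0b458V.Stmt

/-!
# Positivity passes from a ring of cycles `Z` to `Z[D] / D ^ 2`

`Pc0b458Z.NumAb` is the ring of cycles modulo numerical equivalence on a polarised abelian variety
(file `Pool.Agent.Lib.Pc0b458V.Stmt`). We put such a structure on the ring of dual numbers over it,
with polarisation `L + D`: this is the ring of the product with a projective line.
-/

universe u

namespace Pc0b458D

open Pc0b458Z

/-- the multiplicative unit has codimension zero, and cycles have rational coefficients -/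
structure Good (B : NumAb.{u}) : Prop where
  one : 1 ∈ B.cod 0
  rat : ∀ k : ℕ, 0 < k → ∀ n, ∀ z ∈ B.cod n, ∃ w ∈ B.cod n, (k : B.Z) * w = z

/-- the classes of codimension `n`, and zero -/
def Z0 (B : NumAb.{u}) (n : ℕ) (x : B.Z) : Prop := x ∈ B.cod n ∨ x = 0

section

variable {B : NumAb.{u}}

theorem deg_zero : B.deg 0 = 0 := by
  have := B.deg_add 0 0
  simp only [add_zero] at this
  linarith

theorem deg_neg (x : B.Z) : B.deg (-x) = -B.deg x := by
  have := B.deg_add x (-x)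
  rw [add_neg_cancel, deg_zero] at this
  linarith

theorem deg_sub (x y : B.Z) : B.deg (x - y) = B.deg x - B.deg y := by
  rw [sub_eq_add_neg, B.deg_add, deg_neg]
  ring

theorem deg_natMul (k : ℕ) (x : B.Z) : B.deg ((k : B.Z) * x) = k * B.deg x := by
  induction k with
  | zero => simp [deg_zero]
  | succ k ih =>
    push_cast
    rw [add_mul, B.deg_add, ih, one_mul]
    ring

theorem Z0.zero (n : ℕ) : Z0 B n 0 := Or.inr rfl

theorem Z0.add {n : ℕ} {x y : B.Z} (hx : Z0 B n x) (hy : Z0 B n y) : Z0 B n (x + y) := by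
  rcases hx with hx | rfl
  · rcases hy with hy | rfl
    · exact Or.inl (B.add_mem n x hx y hy)
    · rw [add_zero]
      exact Or.inl hx
  · rw [zero_add]
    exact hy

theorem Z0.neg {n : ℕ} {x : B.Z} (hx : Z0 B n x) : Z0 B n (-x) := by
  rcases hx with hx | rfl
  · exact Or.inl (B.neg_mem n x hx)
  · rw [neg_zero]
    exact Or.inr rfl

theorem Z0.sub {n : ℕ} {x y : B.Z} (hx : Z0 B n x) (hy : Z0 B n y) : Z0 B n (x - y) := by
  rw [sub_eq_add_neg]
  exact hx.add hy.neg

theorem Z0.mul {m n : ℕ} {x y : B.Z} (hx : Z0 B m x) (hy : Z0 B n y) : Z0 B (m + n) (x * y) := by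
  rcases hx with hx | rfl
  · rcases hy with hy | rfl
    · exact Or.inl (B.mul_mem m n x hx y hy)
    · rw [mul_zero]
      exact Or.inr rfl
  · rw [zero_mul]
    exact Or.inr rfl

theorem Z0.num {i : ℕ} {x : B.Z} (hx : Z0 B i x)
    (h : ∀ j, i + j = B.g → ∀ y, Z0 B j y → B.deg (x * y) = 0) : x = 0 := by
  rcases hx with hx | rfl
  · exact B.num i x hx fun j hj y hy => h j hj y (Or.inl hy)
  · rfl

theorem Z0.high {i : ℕ} {x : B.Z} (hx : Z0 B i x) (hi : B.g < i) : x = 0 :=
  hx.num fun j hj => by omega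

theorem Z0.lef {n : ℕ} (hn : 2 * n ≤ B.g) {z : B.Z} (hz : Z0 B (B.g - n) z) :
    ∃ x, Z0 B n x ∧ z = B.L ^ (B.g - 2 * n) * x := by
  rcases hz with hz | rfl
  · obtain ⟨x, hx, h⟩ := B.lef n hn z hz
    exact ⟨x, Or.inl hx, h⟩
  · exact ⟨0, Or.inr rfl, by rw [mul_zero]⟩

/-- the Lefschetz operator is injective in low codimension -/
theorem Z0.inj {n : ℕ} (hn : 2 * n ≤ B.g) {x : B.Z} (hx : Z0 B n x)
    (h : B.L ^ (B.g - 2 * n) * x = 0) : x = 0 := by
  refine hx.num fun j hj y hy => ?_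
  obtain rfl : j = B.g - n := by omega
  obtain ⟨z, -, rfl⟩ := Z0.lef hn hy
  rw [show x * (B.L ^ (B.g - 2 * n) * z) = B.L ^ (B.g - 2 * n) * x * z by ring, h, zero_mul,
    deg_zero]

theorem Z0.tf {k : ℕ} (hk : 0 < k) {n : ℕ} {x : B.Z} (hx : Z0 B n x) (h : (k : B.Z) * x = 0) :
    x = 0 := by
  refine hx.num fun j _ y _ => ?_
  have h1 : B.deg ((k : B.Z) * (x * y)) = 0 := by
    rw [show (k : B.Z) * (x * y) = (k : B.Z) * x * y by ring, h, zero_mul, deg_zero]
  rw [deg_natMul] at h1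
  have hk' : (k : ℚ) ≠ 0 := by exact_mod_cast hk.ne'
  exact (mul_eq_zero.1 h1).resolve_left hk'

theorem Good.div (hB : Good B) {k : ℕ} (hk : 0 < k) {n : ℕ} {x : B.Z} (hx : Z0 B n x) :
    ∃ w, Z0 B n w ∧ (k : B.Z) * w = x := by
  rcases hx with hx | rfl
  · obtain ⟨w, hw, h⟩ := hB.rat k hk n x hx
    exact ⟨w, Or.inl hw, h⟩
  · exact ⟨0, Or.inr rfl, mul_zero _⟩

theorem Z0.pow_L (hB : Good B) (k : ℕ) : Z0 B k (B.L ^ k) := by
  induction k with
  | zero =>
    rw [pow_zero]
    exact Or.inl hB.one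
  | succ k ih =>
    rw [pow_succ]
    exact ih.mul (Or.inl B.L_mem)

theorem Z0.pow_mul (hB : Good B) (k : ℕ) {m n : ℕ} {x : B.Z} (hx : Z0 B n x) (hm : k + n = m) :
    Z0 B m (B.L ^ k * x) := by
  rw [← hm]
  exact (Z0.pow_L hB k).mul hx

/-- positivity, for the zero class as well -/
theorem Positive.nonneg {n : ℕ} (hP : B.Positive n) {x : B.Z} (hx : Z0 B n x)
    (hL : B.L ^ (B.g - 2 * n + 1) * x = 0) :
    0 ≤ (-1) ^ n * B.deg (x * x * B.L ^ (B.g - 2 * n)) ∧
      ((-1) ^ n * B.deg (x * x * B.L ^ (B.g - 2 * n)) = 0 → x = 0) := by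
  by_cases h0 : x = 0
  · subst h0
    simp [deg_zero]
  · rcases hx with hx | hx
    · have := hP x hx hL h0
      exact ⟨this.le, fun h => absurd h this.ne'⟩
    · exact absurd hx h0

end

section

variable (B : NumAb.{u})

/-- the classes of codimension `n` in `Z[D] / D ^ 2` -/
def ppCod (n : ℕ) (z : DualNumber B.Z) : Prop :=
  Z0 B n z.fst ∧ (n = 0 → z.snd = 0) ∧ ∀ m, n = m + 1 → Z0 B m z.snd

variable {B}

theorem ppCod.zero (n : ℕ) : ppCod B n 0 := ⟨Z0.zero n, fun _ => rfl, fun m _ => Z0.zero m⟩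

theorem ppCod.add {n : ℕ} {x y : DualNumber B.Z} (hx : ppCod B n x) (hy : ppCod B n y) :
    ppCod B n (x + y) := by
  refine ⟨?_, fun h => ?_, fun m h => ?_⟩
  · rw [TrivSqZeroExt.fst_add]
    exact hx.1.add hy.1
  · rw [TrivSqZeroExt.snd_add, hx.2.1 h, hy.2.1 h, add_zero]
  · rw [TrivSqZeroExt.snd_add]
    exact (hx.2.2 m h).add (hy.2.2 m h)

theorem ppCod.neg {n : ℕ} {x : DualNumber B.Z} (hx : ppCod B n x) : ppCod B n (-x) := by
  refine ⟨?_, fun h => ?_, fun m h => ?_⟩
  · rw [TrivSqZeroExt.fst_neg]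
    exact hx.1.neg
  · rw [TrivSqZeroExt.snd_neg, hx.2.1 h, neg_zero]
  · rw [TrivSqZeroExt.snd_neg]
    exact (hx.2.2 m h).neg

theorem ppCod.mul {m n : ℕ} {x y : DualNumber B.Z} (hx : ppCod B m x) (hy : ppCod B n y) :
    ppCod B (m + n) (x * y) := by
  refine ⟨?_, fun h => ?_, fun k h => ?_⟩
  · rw [TrivSqZeroExt.fst_mul]
    exact hx.1.mul hy.1
  · rw [DualNumber.snd_mul, hx.2.1 (by omega), hy.2.1 (by omega), mul_zero, zero_mul, add_zero]
  · rw [DualNumber.snd_mul]
    refine Z0.add ?_ ?_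
    · rcases Nat.eq_zero_or_pos n with h0 | h0
      · rw [hy.2.1 h0, mul_zero]
        exact Z0.zero _
      · obtain ⟨l, rfl⟩ := Nat.exists_eq_add_of_lt h0
        have := hx.1.mul (hy.2.2 l (by omega))
        rwa [show m + l = k by omega] at this
    · rcases Nat.eq_zero_or_pos m with h0 | h0
      · rw [hx.2.1 h0, zero_mul]
        exact Z0.zero _
      · obtain ⟨l, rfl⟩ := Nat.exists_eq_add_of_lt h0
        have := (hx.2.2 l (by omega)).mul hy.1
        rwa [show l + n = k by omega] at this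

/-- the class of the polarisation `L + D` -/
def ppL (B : NumAb.{u}) : DualNumber B.Z := TrivSqZeroExt.inl B.L + TrivSqZeroExt.inr 1

@[simp] theorem ppL_fst : (ppL B).fst = B.L := by simp [ppL]

@[simp] theorem ppL_snd : (ppL B).snd = 1 := by simp [ppL]

theorem ppL_pow_fst (k : ℕ) : (ppL B ^ k).fst = B.L ^ k := by
  rw [TrivSqZeroExt.fst_pow, ppL_fst]

theorem ppL_pow_snd (k : ℕ) : (ppL B ^ k).snd = (k : B.Z) * B.L ^ (k - 1) := by
  induction k with
  | zero => simp
  | succ k ih =>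
    rw [pow_succ, DualNumber.snd_mul, ih, ppL_pow_fst, ppL_fst, ppL_snd, mul_one,
      Nat.add_sub_cancel]
    rcases k with _ | k
    · simp
    · rw [Nat.add_sub_cancel, pow_succ]
      push_cast
      ring

theorem ppL_cod (hB : Good B) : ppCod B 1 (ppL B) := by
  refine ⟨?_, fun h => by omega, fun m h => ?_⟩
  · rw [ppL_fst]
    exact Or.inl B.L_mem
  · obtain rfl : m = 0 := by omega
    rw [ppL_snd]
    exact Or.inl hB.one

theorem ppCod.inr (m : ℕ) {v : B.Z} (hv : Z0 B m v) :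
    ppCod B (m + 1) (TrivSqZeroExt.inr v : DualNumber B.Z) :=
  ⟨by rw [TrivSqZeroExt.fst_inr]; exact Z0.zero _, fun h => by omega, fun k h => by
    obtain rfl : k = m := by omega
    rw [TrivSqZeroExt.snd_inr]
    exact hv⟩

theorem ppCod.inl (m : ℕ) {v : B.Z} (hv : Z0 B m v) :
    ppCod B m (TrivSqZeroExt.inl v : DualNumber B.Z) :=
  ⟨by rw [TrivSqZeroExt.fst_inl]; exact hv, fun _ => by rw [TrivSqZeroExt.snd_inl], fun k _ => by
    rw [TrivSqZeroExt.snd_inl]
    exact Z0.zero _⟩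

theorem pp_num (i : ℕ) (x : DualNumber B.Z) (hx : ppCod B i x)
    (h : ∀ j, i + j = B.g + 1 → ∀ y : DualNumber B.Z, ppCod B j y → B.deg (x * y).snd = 0) :
    x = 0 := by
  apply TrivSqZeroExt.ext
  · rw [TrivSqZeroExt.fst_zero]
    refine hx.1.num fun j hj y hy => ?_
    have := h (j + 1) (by omega) _ (ppCod.inr j hy)
    rw [DualNumber.snd_mul, TrivSqZeroExt.snd_inr, TrivSqZeroExt.fst_inr, mul_zero,
      add_zero] at this
    exact this
  · rw [TrivSqZeroExt.snd_zero]
    rcases Nat.eq_zero_or_pos i with h0 | h0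
    · exact hx.2.1 h0
    · obtain ⟨l, rfl⟩ := Nat.exists_eq_add_of_lt h0
      refine (hx.2.2 l (by omega)).num fun j hj y hy => ?_
      have := h j (by omega) _ (ppCod.inl j hy)
      rw [DualNumber.snd_mul, TrivSqZeroExt.snd_inl, TrivSqZeroExt.fst_inl, mul_zero,
        zero_add] at this
      exact this

theorem pp_lef (hB : Good B) (n : ℕ) (hn : 2 * n ≤ B.g + 1) (z : DualNumber B.Z)
    (hz : ppCod B (B.g + 1 - n) z) :
    ∃ x, ppCod B n x ∧ z = ppL B ^ (B.g + 1 - 2 * n) * x := by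
  rcases Nat.eq_or_lt_of_le hn with h0 | h0
  · refine ⟨z, ?_, ?_⟩
    · rwa [show B.g + 1 - n = n by omega] at hz
    · rw [show B.g + 1 - 2 * n = 0 by omega, pow_zero, one_mul]
  · obtain ⟨s, hs⟩ : ∃ s, B.g = 2 * n + s := ⟨B.g - 2 * n, by omega⟩
    have hr : B.g + 1 - 2 * n = s + 1 := by omega
    have hg : B.g - 2 * n = s := by omega
    obtain ⟨D0, hD0, hD⟩ := Z0.lef (B := B) (n := n) (by omega) (hz.2.2 (B.g - n) (by omega))
    rw [hg] at hD
    rw [hr]
    rcases n with _ | m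
    · obtain ⟨a, ha, hka⟩ := hB.div (Nat.succ_pos s) hD0
      refine ⟨TrivSqZeroExt.inl a, ppCod.inl 0 ha, ?_⟩
      apply TrivSqZeroExt.ext
      · rw [TrivSqZeroExt.fst_mul, ppL_pow_fst, TrivSqZeroExt.fst_inl,
          Z0.high hz.1 (by omega), Z0.high (Z0.pow_mul hB (s + 1) ha rfl) (by omega)]
      · rw [DualNumber.snd_mul, ppL_pow_snd, TrivSqZeroExt.fst_inl, TrivSqZeroExt.snd_inl,
          mul_zero, zero_add, hD, ← hka, Nat.add_sub_cancel]
        push_cast
        ring
    · obtain ⟨A0, hA0, hA⟩ := Z0.lef (B := B) (n := m) (by omega)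
        (z := z.fst) (by rw [show B.g - m = B.g + 1 - (m + 1) by omega]; exact hz.1)
      rw [show B.g - 2 * m = s + 2 by omega] at hA
      obtain ⟨D1, hD1, hD1'⟩ := Z0.lef (B := B) (n := m) (by omega)
        (z := B.L ^ (s + 1) * D0) (Z0.pow_mul hB _ hD0 (by omega))
      rw [show B.g - 2 * m = s + 2 by omega] at hD1'
      have hkA : Z0 B m (((s + 1 : ℕ) : B.Z) * A0) := by
        have h1 : Z0 B m (((s + 1 : ℕ) : B.Z) * A0) := by
          have : ∀ k : ℕ, Z0 B m ((k : B.Z) * A0) := by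
            intro k
            induction k with
            | zero => simpa using Z0.zero m
            | succ k ih =>
              push_cast
              rw [add_mul, one_mul]
              exact ih.add hA0
          exact this _
        exact h1
      set d := D1 - ((s + 1 : ℕ) : B.Z) * A0 with hd
      have hd0 : Z0 B m d := hD1.sub hkA
      obtain ⟨a, ha, hka⟩ := hB.div (Nat.succ_pos s)
        (hD0.sub (Z0.mul (Or.inl B.L_mem) hd0 |> fun h => by rwa [Nat.add_comm 1 m] at h))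
      refine ⟨TrivSqZeroExt.inl a + TrivSqZeroExt.inr d,
        (ppCod.inl _ ha).add (ppCod.inr m hd0), ?_⟩
      have hLa : B.L ^ (s + 1) * a = z.fst := by
        have h1 : ((s.succ : ℕ) : B.Z) * (B.L ^ (s + 1) * a - z.fst) = 0 := by
          have : ((s.succ : ℕ) : B.Z) * (B.L ^ (s + 1) * a) =
              B.L ^ (s + 1) * (((s.succ : ℕ) : B.Z) * a) := by ring
          rw [mul_sub, this, hka, mul_sub, hD1', hA, hd]
          push_cast
          ring
        have h2 := Z0.tf (Nat.succ_pos s)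
          ((Z0.pow_mul hB (s + 1) ha (m := B.g - m) (by omega)).sub
            (show Z0 B (B.g - m) z.fst by
              rw [show B.g - m = B.g + 1 - (m + 1) by omega]; exact hz.1)) h1
        exact sub_eq_zero.1 h2
      apply TrivSqZeroExt.ext
      · rw [TrivSqZeroExt.fst_mul, ppL_pow_fst, TrivSqZeroExt.fst_add, TrivSqZeroExt.fst_inl,
          TrivSqZeroExt.fst_inr, add_zero, hLa]
      · rw [DualNumber.snd_mul, ppL_pow_snd, ppL_pow_fst, TrivSqZeroExt.fst_add,
          TrivSqZeroExt.fst_inl, TrivSqZeroExt.fst_inr, add_zero, TrivSqZeroExt.snd_add,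
          TrivSqZeroExt.snd_inl, TrivSqZeroExt.snd_inr, zero_add, hD, Nat.add_sub_cancel]
        have : ((s + 1 : ℕ) : B.Z) * B.L ^ s * a = B.L ^ s * (((s.succ : ℕ) : B.Z) * a) := by
          ring
        rw [this, hka]
        ring

theorem pp_rat (hB : Good B) (k : ℕ) (hk : 0 < k) (n : ℕ) (z : DualNumber B.Z)
    (hz : ppCod B n z) : ∃ w, ppCod B n w ∧ (k : DualNumber B.Z) * w = z := by
  obtain ⟨a, ha, hka⟩ := hB.div hk hz.1
  rcases Nat.eq_zero_or_pos n with h0 | h0
  · refine ⟨TrivSqZeroExt.inl a, ppCod.inl n ha, ?_⟩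
    apply TrivSqZeroExt.ext
    · rw [TrivSqZeroExt.fst_mul, TrivSqZeroExt.fst_natCast, TrivSqZeroExt.fst_inl, hka]
    · rw [DualNumber.snd_mul, TrivSqZeroExt.fst_natCast, TrivSqZeroExt.snd_natCast,
        TrivSqZeroExt.snd_inl, mul_zero, zero_mul, add_zero, hz.2.1 h0]
  · obtain ⟨l, rfl⟩ := Nat.exists_eq_add_of_lt h0
    obtain ⟨b, hb, hkb⟩ := hB.div hk (hz.2.2 l (by omega))
    refine ⟨TrivSqZeroExt.inl a + TrivSqZeroExt.inr b,
      (ppCod.inl _ ha).add (by rw [show 0 + l + 1 = l + 1 by omega]; exact ppCod.inr l hb), ?_⟩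
    apply TrivSqZeroExt.ext
    · rw [TrivSqZeroExt.fst_mul, TrivSqZeroExt.fst_natCast, TrivSqZeroExt.fst_add,
        TrivSqZeroExt.fst_inl, TrivSqZeroExt.fst_inr, add_zero, hka]
    · rw [DualNumber.snd_mul, TrivSqZeroExt.fst_natCast, TrivSqZeroExt.snd_natCast,
        TrivSqZeroExt.snd_add, TrivSqZeroExt.snd_inl, TrivSqZeroExt.snd_inr, zero_add, zero_mul,
        add_zero, hkb]

theorem ppCod.one (hB : Good B) : ppCod B 0 1 :=
  ⟨by rw [TrivSqZeroExt.fst_one]; exact Or.inl hB.one, fun _ => by rw [TrivSqZeroExt.snd_one],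
    fun m h => by omega⟩

/-- the ring `Z[D] / D ^ 2` with the polarisation `L + D` -/
noncomputable def pp (B : NumAb.{u}) (hB : Good B) : NumAb.{u} where
  g := B.g + 1
  Z := DualNumber B.Z
  cod n := {z | ppCod B n z}
  add_mem _ _ hx _ hy := ppCod.add hx hy
  neg_mem _ _ hx := ppCod.neg hx
  mul_mem _ _ _ hx _ hy := ppCod.mul hx hy
  deg z := B.deg z.snd
  deg_add x y := by rw [TrivSqZeroExt.snd_add, B.deg_add]
  L := ppL B
  L_mem := ppL_cod hB
  num i x hx h := pp_num i x hx h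
  lef n hn z hz := pp_lef hB n hn z hz

theorem pp_good (hB : Good B) : Good (pp B hB) where
  one := ppCod.one hB
  rat k hk n z hz := pp_rat hB k hk n z hz

/-- positivity for `Z[D] / D ^ 2` -/
theorem pp_pos_aux (hB : Good B) (N : ℕ) (hP : ∀ m ≤ N, 2 * m ≤ B.g → B.Positive m) (n : ℕ)
    (hN : n ≤ N) (hn : 2 * n ≤ B.g + 1) (x : DualNumber B.Z) (hx : ppCod B n x)
    (hL : ppL B ^ (B.g + 1 - 2 * n + 1) * x = 0) (h0 : x ≠ 0) :
    0 < (-1) ^ n * B.deg (x * x * ppL B ^ (B.g + 1 - 2 * n)).snd := by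
  have hL1 : B.L ^ (B.g + 1 - 2 * n + 1) * x.fst = 0 := by
    have := congrArg TrivSqZeroExt.fst hL
    rwa [TrivSqZeroExt.fst_mul, ppL_pow_fst, TrivSqZeroExt.fst_zero] at this
  have hL2 : B.L ^ (B.g + 1 - 2 * n + 1) * x.snd +
      ((B.g + 1 - 2 * n + 1 : ℕ) : B.Z) * B.L ^ (B.g + 1 - 2 * n) * x.fst = 0 := by
    have := congrArg TrivSqZeroExt.snd hL
    rwa [DualNumber.snd_mul, ppL_pow_fst, ppL_pow_snd, Nat.add_sub_cancel,
      TrivSqZeroExt.snd_zero] at this
  rw [DualNumber.snd_mul, ppL_pow_fst, ppL_pow_snd, TrivSqZeroExt.fst_mul, DualNumber.snd_mul]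
  rcases Nat.eq_or_lt_of_le hn with h1 | h1
  · -- the middle codimension of a space of even dimension
    rcases n with _ | m
    · omega
    have hr : B.g + 1 - 2 * (m + 1) = 0 := by omega
    have hg : B.g - 2 * m = 1 := by omega
    rw [hr] at hL1 hL2 ⊢
    have hd := hx.2.2 m rfl
    set a := x.fst with ha
    set d := x.snd with hd'
    have haL : a = -(B.L * d) := by
      have : B.L * d + a = 0 := by
        simpa using hL2
      exact eq_neg_of_add_eq_zero_right this
    have hdL : B.L ^ (B.g - 2 * m + 1) * d = 0 := by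
      rw [hg]
      have : B.L * a = 0 := by simpa using hL1
      rw [haL] at this
      have h2 : B.L ^ (1 + 1) * d = -(B.L * -(B.L * d)) := by ring
      rw [h2, this, neg_zero]
    have hd0 : d ≠ 0 := by
      intro h
      apply h0
      apply TrivSqZeroExt.ext
      · rw [TrivSqZeroExt.fst_zero, ← ha, haL, h, mul_zero, neg_zero]
      · rw [TrivSqZeroExt.snd_zero, ← hd', h]
    have hp := (Positive.nonneg (hP m (by omega) (by omega)) hd hdL)
    have hpos : 0 < (-1) ^ m * B.deg (d * d * B.L ^ (B.g - 2 * m)) :=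
      lt_of_le_of_ne hp.1 fun h => hd0 (hp.2 h.symm)
    rw [hg, pow_one] at hpos
    have he : a * a * (((0 : ℕ) : B.Z) * B.L ^ (0 - 1)) + (a * d + d * a) * B.L ^ 0 =
        -(d * d * B.L + d * d * B.L) := by
      rw [haL]
      push_cast
      ring
    rw [he, deg_neg, B.deg_add, pow_succ]
    linarith
  · obtain ⟨s, hs⟩ : ∃ s, B.g = 2 * n + s := ⟨B.g - 2 * n, by omega⟩
    have hr : B.g + 1 - 2 * n = s + 1 := by omega
    have hg : B.g - 2 * n = s := by omega
    rw [hr] at hL1 hL2 ⊢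
    rw [Nat.add_sub_cancel]
    have hs1 : (0 : ℚ) < (s : ℚ) + 1 := by positivity
    rcases n with _ | m
    · have hd : x.snd = 0 := hx.2.1 rfl
      have hp := Positive.nonneg (hP 0 (by omega) (by omega)) hx.1 (by
        refine Z0.high (Z0.pow_mul hB _ hx.1 rfl) (by omega))
      have ha0 : x.fst ≠ 0 := by
        intro h
        exact h0 (TrivSqZeroExt.ext (by rw [h, TrivSqZeroExt.fst_zero])
          (by rw [hd, TrivSqZeroExt.snd_zero]))
      have hpos := lt_of_le_of_ne hp.1 fun h => ha0 (hp.2 h.symm)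
      rw [hg] at hpos
      rw [hd]
      have he : x.fst * x.fst * (((s + 1 : ℕ) : B.Z) * B.L ^ s) +
          (x.fst * 0 + 0 * x.fst) * B.L ^ (s + 1) =
          ((s + 1 : ℕ) : B.Z) * (x.fst * x.fst * B.L ^ s) := by ring
      rw [he, deg_natMul]
      push_cast
      rw [pow_zero, one_mul] at hpos ⊢
      exact mul_pos hs1 hpos
    · have hd := hx.2.2 m rfl
      obtain ⟨a1, ha1, h1'⟩ := Z0.lef (B := B) (n := m) (by omega)
        (z := B.L ^ (s + 1) * x.fst) (Z0.pow_mul hB _ hx.1 (by omega))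
      rw [show B.g - 2 * m = s + 2 by omega] at h1'
      set a := x.fst with ha
      set d := x.snd with hd'
      set a0 := a - B.L * a1 with ha0
      have hLa0 : B.L ^ (s + 1) * a0 = 0 := by
        rw [ha0, mul_sub, h1']
        ring
      have hLa1 : B.L ^ (s + 3) * a1 = 0 := by
        have : B.L ^ (s + 3) * a1 = B.L * (B.L ^ (s + 2) * a1) := by ring
        rw [this, ← h1']
        have h2 : B.L * (B.L ^ (s + 1) * a) = B.L ^ (s + 1 + 1) * a := by ring
        rw [h2, hL1]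
      have hZk : ∀ k : ℕ, Z0 B m ((k : B.Z) * a1) := by
        intro k
        induction k with
        | zero => simpa using Z0.zero m
        | succ k ih =>
          push_cast
          rw [add_mul, one_mul]
          exact ih.add ha1
      have hda : d = -(((s + 2 : ℕ) : B.Z) * a1) := by
        have h2 : B.L ^ (B.g - 2 * m) * (d + ((s + 2 : ℕ) : B.Z) * a1) = 0 := by
          rw [show B.g - 2 * m = s + 2 by omega]
          have h3 : B.L ^ (s + 2) * (d + ((s + 2 : ℕ) : B.Z) * a1) =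
              B.L ^ (s + 1 + 1) * d + ((s + 1 + 1 : ℕ) : B.Z) * (B.L ^ (s + 2) * a1) := by
            push_cast
            ring
          rw [h3, ← h1', ← mul_assoc]
          exact hL2
        exact eq_neg_of_add_eq_zero_left (Z0.inj (by omega) (hd.add (hZk _)) h2)
      have hLa1' : Z0 B (m + 1) (B.L * a1) := by
        have := Z0.mul (Or.inl B.L_mem) ha1
        rwa [Nat.add_comm 1 m] at this
      have hp0 := Positive.nonneg (hP (m + 1) (by omega) (by omega)) (hx.1.sub hLa1') (by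
        rw [hg]
        exact hLa0)
      have hp1 := Positive.nonneg (hP m (by omega) (by omega)) ha1 (by
        rw [show B.g - 2 * m = s + 2 by omega]
        exact hLa1)
      rw [hg] at hp0
      rw [show B.g - 2 * m = s + 2 by omega] at hp1
      have haa : a = a0 + B.L * a1 := by rw [ha0]; ring
      have he : a * a * (((s + 1 : ℕ) : B.Z) * B.L ^ s) + (a * d + d * a) * B.L ^ (s + 1) =
          ((s + 1 : ℕ) : B.Z) * (a0 * a0 * B.L ^ s) -
            ((s + 3 : ℕ) : B.Z) * (a1 * a1 * B.L ^ (s + 2)) := by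
        have h4 : a * a * (((s + 1 : ℕ) : B.Z) * B.L ^ s) + (a * d + d * a) * B.L ^ (s + 1) -
            (((s + 1 : ℕ) : B.Z) * (a0 * a0 * B.L ^ s) -
            ((s + 3 : ℕ) : B.Z) * (a1 * a1 * B.L ^ (s + 2))) =
            B.L ^ (s + 1) * a0 * (2 * ((s + 1 : ℕ) : B.Z) * a1 -
              2 * ((s + 2 : ℕ) : B.Z) * a1) := by
          rw [hda, haa]
          push_cast
          ring
        rw [hLa0, zero_mul] at h4
        exact sub_eq_zero.1 h4
      rw [he, deg_sub, deg_natMul, deg_natMul]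
      push_cast
      have hne : a0 ≠ 0 ∨ a1 ≠ 0 := by
        by_contra hcon
        rw [not_or, not_not, not_not] at hcon
        apply h0
        apply TrivSqZeroExt.ext
        · rw [TrivSqZeroExt.fst_zero, ← ha, haa, hcon.1, hcon.2, mul_zero, add_zero]
        · rw [TrivSqZeroExt.snd_zero, ← hd', hda, hcon.2, mul_zero, neg_zero]
      have hs3 : (0 : ℚ) < (s : ℚ) + 3 := by positivity
      have hsum : (-1) ^ (m + 1) * (((s : ℚ) + 1) * B.deg (a0 * a0 * B.L ^ s) -
          ((s : ℚ) + 3) * B.deg (a1 * a1 * B.L ^ (s + 2))) =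
          ((s : ℚ) + 1) * ((-1) ^ (m + 1) * B.deg (a0 * a0 * B.L ^ s)) +
          ((s : ℚ) + 3) * ((-1) ^ m * B.deg (a1 * a1 * B.L ^ (s + 2))) := by
        rw [pow_succ]
        ring
      rw [hsum]
      rcases hne with h | h
      · have := lt_of_le_of_ne hp0.1 fun h' => h (hp0.2 h'.symm)
        have h5 := mul_pos hs1 this
        have h6 := mul_nonneg hs3.le hp1.1
        linarith
      · have := lt_of_le_of_ne hp1.1 fun h' => h (hp1.2 h'.symm)
        have h5 := mul_nonneg hs1.le hp0.1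
        have h6 := mul_pos hs3 this
        linarith

theorem pp_pos (hB : Good B) (N : ℕ) (hP : ∀ m ≤ N, 2 * m ≤ B.g → B.Positive m) (n : ℕ)
    (hN : n ≤ N) (hn : 2 * n ≤ B.g + 1) : (pp B hB).Positive n :=
  fun x hx hL h0 => pp_pos_aux hB N hP n hN hn x hx hL h0

end

end Pc0b458D
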