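import Pool.Agent.Lib.Pc0b458D.Ext
import Pool.Agent.Lib.Pc0b458D.Pp

/-!
# The ring of cycles as a graded group with a Lefschetz operator
-/

universe u

namespace Pc0b458D

open Pc0b458Z

namespace LM

/-- the classes of codimension `n`, and zero -/
def codG (B : NumAb.{u}) (n : ℕ) : AddSubgroup B.Z where
  carrier := {x | Z0 B n x}
  add_mem' hx hy := Z0.add hx hy
  zero_mem' := Z0.zero n
  neg_mem' hx := Z0.neg hx

theorem mem_codG {B : NumAb.{u}} {n : ℕ} {x : B.Z} : x ∈ codG B n ↔ Z0 B n x := Iff.rfl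

/-- the degree as a homomorphism of groups -/
def degHom (B : NumAb.{u}) : B.Z →+ ℚ where
  toFun := B.deg
  map_zero' := deg_zero
  map_add' := B.deg_add

theorem mulLeft_iter (B : NumAb.{u}) (k : ℕ) (x : B.Z) :
    (⇑(AddMonoidHom.mulLeft B.L))^[k] x = B.L ^ k * x := by
  induction k with
  | zero => simp
  | succ k ih =>
    rw [Function.iterate_succ_apply', ih, AddMonoidHom.coe_mulLeft, pow_succ]
    ring

/-- the ring of cycles modulo numerical equivalence -/
noncomputable def ofNum (B : NumAb.{u}) : LM.{u} where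
  V := B.Z
  g := B.g
  cod := codG B
  L := AddMonoidHom.mulLeft B.L
  B := (AddMonoidHom.compHom (degHom B)).comp AddMonoidHom.mul
  L_mem n x hx := by
    have := Z0.mul (Or.inl B.L_mem) (mem_codG.1 hx)
    rw [Nat.add_comm 1 n] at this
    exact this
  symm u v := by
    change B.deg (u * v) = B.deg (v * u)
    rw [mul_comm]
  adj u v := by
    change B.deg (B.L * u * v) = B.deg (u * (B.L * v))
    congr 1
    ring
  top n hn x hx := Z0.high (mem_codG.1 hx) hn
  nondeg n hn x hx h := by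
    refine Z0.num (mem_codG.1 hx) fun j hj y hy => ?_
    obtain rfl : j = B.g - n := by omega
    exact h y hy
  lef n hn z hz := by
    obtain ⟨x, hx, h⟩ := Z0.lef hn (mem_codG.1 hz)
    refine ⟨1, Nat.one_pos, x, hx, ?_⟩
    rw [one_smul, h, mulLeft_iter]

theorem ofNum_iter (B : NumAb.{u}) (k : ℕ) (x : B.Z) :
    (ofNum B).L^[k] x = (B.L ^ k * x : B.Z) := mulLeft_iter B k x

theorem ofNum_B (B : NumAb.{u}) (x y : B.Z) : (ofNum B).B x y = B.deg (x * y) := rfl

theorem ofNum_pos_aux (B : NumAb.{u}) {n : ℕ} (h : B.Positive n) (x : B.Z) (hx : Z0 B n x)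
    (hL : (⇑(AddMonoidHom.mulLeft B.L))^[B.g - 2 * n + 1] x = 0) (h0 : x ≠ 0) :
    0 < (-1 : ℚ) ^ n * B.deg (x * (⇑(AddMonoidHom.mulLeft B.L))^[B.g - 2 * n] x) := by
  rcases hx with hx | hx
  · rw [mulLeft_iter] at hL ⊢
    have := h x hx hL h0
    rwa [show x * (B.L ^ (B.g - 2 * n) * x) = x * x * B.L ^ (B.g - 2 * n) by ring]
  · exact absurd hx h0

theorem ofNum_HR (B : NumAb.{u}) {n : ℕ} (h : B.Positive n) : (ofNum B).HR n :=
  fun x hx hL h0 => ofNum_pos_aux B h x hx hL h0

end LM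

end Pc0b458D
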