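import Pool.Agent.Lib.Pc0b458D.Mul

/-!
# Multiplication with the class of the polarisation
-/

universe u

namespace Pc0b458D

open Pc0b458Z

variable {B : NumAb.{u}} {r : ℕ}

/-- a sum of elements which are zero or in `B.cod k` -/
theorem sum_mem_of_zero_or {α : Type*} {k : ℕ} (s : Finset α) (f : α → B.Z)
    (h : ∀ i ∈ s, f i = 0 ∨ f i ∈ B.cod k) : ∑ i ∈ s, f i = 0 ∨ ∑ i ∈ s, f i ∈ B.cod k := by
  classical
  induction s using Finset.induction_on with
  | empty => left; simp
  | insert a s ha ih =>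
    rw [Finset.sum_insert ha]
    have h1 := ih fun i hi => h i (Finset.mem_insert_of_mem hi)
    rcases h a (Finset.mem_insert_self a s) with h2 | h2
    · rw [h2, zero_add]
      exact h1
    · right
      rcases h1 with h3 | h3
      · rw [h3, add_zero]
        exact h2
      · exact B.add_mem k _ h2 _ h3

theorem natCast_mul_mem {k : ℕ} {z : B.Z} (hz : z ∈ B.cod k) (m : ℕ) :
    (m : B.Z) * z ∈ B.cod k := by
  induction m with
  | zero =>
    have := B.add_mem k _ hz _ (B.neg_mem k _ hz)
    rw [add_neg_cancel] at this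
    simpa using this
  | succ m ih =>
    have : ((m + 1 : ℕ) : B.Z) * z = (m : B.Z) * z + z := by push_cast; ring
    rw [this]
    exact B.add_mem k _ ih _ hz

theorem IsRep.lop {n : ℕ} {c : Finset (Fin r) → Finset (Fin r) → B.Z} (h : IsRep B r n c)
    (d : Fin r → ℕ) : IsRep B r (n + 1) (Lop d c) := by
  intro I J hne
  -- the first term
  have hA : B.L * c I J ≠ 0 → I.card = J.card ∧ I.card ≤ n + 1 := by
    intro h1
    obtain ⟨h2, h3, -⟩ := h I J (right_ne_zero_of_mul h1)
    exact ⟨h2, by omega⟩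
  have hA' : B.L * c I J = 0 ∨ B.L * c I J ∈ B.cod (n + 1 - I.card) := by
    by_cases h1 : c I J = 0
    · left
      rw [h1, mul_zero]
    · right
      obtain ⟨h2, h3, h4⟩ := h I J h1
      have h5 := B.mul_mem 1 (n - I.card) _ B.L_mem _ h4
      have e : 1 + (n - I.card) = n + 1 - I.card := by omega
      rwa [e] at h5
  -- the other terms
  have hB : ∀ i ∈ I ∩ J, (d i : B.Z) * c (I.erase i) (J.erase i) ≠ 0 →
      I.card = J.card ∧ I.card ≤ n + 1 := by
    intro i hi h1
    rw [Finset.mem_inter] at hi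
    obtain ⟨h2, h3, -⟩ := h _ _ (right_ne_zero_of_mul h1)
    have h5 := Finset.card_erase_add_one hi.1
    have h6 := Finset.card_erase_add_one hi.2
    omega
  have hB' : ∀ i ∈ I ∩ J, (d i : B.Z) * c (I.erase i) (J.erase i) = 0 ∨
      (d i : B.Z) * c (I.erase i) (J.erase i) ∈ B.cod (n + 1 - I.card) := by
    intro i hi
    rw [Finset.mem_inter] at hi
    by_cases h1 : c (I.erase i) (J.erase i) = 0
    · left
      rw [h1, mul_zero]
    · right
      obtain ⟨h2, h3, h4⟩ := h _ _ h1
      have h5 := Finset.card_erase_add_one hi.1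
      have e : n - (I.erase i).card = n + 1 - I.card := by omega
      rw [e] at h4
      exact natCast_mul_mem h4 _
  have hsum := sum_mem_of_zero_or (I ∩ J) (fun i => (d i : B.Z) * c (I.erase i) (J.erase i)) hB'
  have hcard : I.card = J.card ∧ I.card ≤ n + 1 := by
    by_cases h1 : B.L * c I J = 0
    · have h2 : ∑ i ∈ I ∩ J, (d i : B.Z) * c (I.erase i) (J.erase i) ≠ 0 := by
        intro h3
        apply hne
        rw [Lop, h1, h3, add_zero]
      obtain ⟨i, hi, h3⟩ := Finset.exists_ne_zero_of_sum_ne_zero h2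
      exact hB i hi h3
    · exact hA h1
  refine ⟨hcard.1, hcard.2, ?_⟩
  rw [Lop]
  rw [Lop] at hne
  rcases hA' with h1 | h1
  · rw [h1, zero_add] at hne ⊢
    exact hsum.resolve_left hne
  · rcases hsum with h2 | h2
    · rw [h2, add_zero]
      exact h1
    · exact B.add_mem _ _ h1 _ h2

theorem IsRep.lop_iter {n : ℕ} {c : Finset (Fin r) → Finset (Fin r) → B.Z} (h : IsRep B r n c)
    (d : Fin r → ℕ) (k : ℕ) : IsRep B r (n + k) ((Lop d)^[k] c) := by
  induction k with
  | zero => exact h
  | succ k ih =>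
    rw [Function.iterate_succ_apply']
    exact ih.lop d

theorem pl_mul_sum {α : Type*} (a : Lam B r) (s : Finset α) (f : α → Lam B r) :
    a * ∑ i ∈ s, f i = ∑ i ∈ s, a * f i := Finset.mul_sum s f a

theorem pl_sum_mul {α : Type*} (a : Lam B r) (s : Finset α) (f : α → Lam B r) :
    (∑ i ∈ s, f i) * a = ∑ i ∈ s, f i * a := Finset.sum_mul s f a

theorem pl_smul_sum {α : Type*} (a : B.Z) (s : Finset α) (f : α → Lam B r) :
    a • ∑ i ∈ s, f i = ∑ i ∈ s, a • f i := Finset.smul_sum

theorem pl_sum_smul {α : Type*} (s : Finset α) (f : α → B.Z) (a : Lam B r) :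
    (∑ i ∈ s, f i) • a = ∑ i ∈ s, f i • a := Finset.sum_smul

theorem xy_mul_ev (i : Fin r) (c : Finset (Fin r) → Finset (Fin r) → B.Z) :
    x i * y i * ev c = ∑ I : Finset (Fin r), ∑ J : Finset (Fin r),
      (if i ∈ I ∧ i ∈ J then c (I.erase i) (J.erase i) else 0) • (mon I J : Lam B r) := by
  have h1 : x i * y i * ev c = ∑ p : Finset (Fin r) × Finset (Fin r),
      (if i ∉ p.1 ∧ i ∉ p.2 then c p.1 p.2 • (mon (insert i p.1) (insert i p.2) : Lam B r)
        else 0) := by
    rw [ev, pl_mul_sum, Fintype.sum_prod_type]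
    refine Finset.sum_congr rfl fun I _ => ?_
    rw [pl_mul_sum]
    refine Finset.sum_congr rfl fun J _ => ?_
    rw [mul_smul_comm]
    by_cases hI : i ∈ I
    · rw [xy_mul_mon_mem (Or.inl hI), smul_zero, if_neg]
      exact fun h => h.1 hI
    · by_cases hJ : i ∈ J
      · rw [xy_mul_mon_mem (Or.inr hJ), smul_zero, if_neg]
        exact fun h => h.2 hJ
      · rw [xy_mul_mon hI hJ, if_pos ⟨hI, hJ⟩]
  have h2 : ∑ I : Finset (Fin r), ∑ J : Finset (Fin r),
      (if i ∈ I ∧ i ∈ J then c (I.erase i) (J.erase i) else 0) • (mon I J : Lam B r) =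
      ∑ p : Finset (Fin r) × Finset (Fin r),
        (if i ∈ p.1 ∧ i ∈ p.2 then c (p.1.erase i) (p.2.erase i) • (mon p.1 p.2 : Lam B r)
          else 0) := by
    rw [Fintype.sum_prod_type]
    refine Finset.sum_congr rfl fun I _ => Finset.sum_congr rfl fun J _ => ?_
    rw [ite_smul, zero_smul]
  rw [h1, h2, ← Finset.sum_filter, ← Finset.sum_filter]
  refine Finset.sum_nbij' (fun p => (insert i p.1, insert i p.2))
    (fun p => (p.1.erase i, p.2.erase i)) ?_ ?_ ?_ ?_ ?_
  · intro p _
    rw [Finset.mem_filter]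
    exact ⟨Finset.mem_univ _, Finset.mem_insert_self _ _, Finset.mem_insert_self _ _⟩
  · intro p _
    rw [Finset.mem_filter]
    exact ⟨Finset.mem_univ _, Finset.notMem_erase _ _, Finset.notMem_erase _ _⟩
  · intro p hp
    rw [Finset.mem_filter] at hp
    simp only [Finset.erase_insert hp.2.1, Finset.erase_insert hp.2.2]
  · intro p hp
    rw [Finset.mem_filter] at hp
    simp only [Finset.insert_erase hp.2.1, Finset.insert_erase hp.2.2]
  · intro p hp
    rw [Finset.mem_filter] at hp
    simp only [Finset.erase_insert hp.2.1, Finset.erase_insert hp.2.2]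

theorem polT_mul_ev (d : Fin r → ℕ) (c : Finset (Fin r) → Finset (Fin r) → B.Z) :
    polT d * ev c = ev (Lop d c) := by
  have h1 : algebraMap B.Z (Lam B r) B.L * ev c =
      ∑ I : Finset (Fin r), ∑ J : Finset (Fin r), (B.L * c I J) • (mon I J : Lam B r) := by
    rw [ev, pl_mul_sum]
    refine Finset.sum_congr rfl fun I _ => ?_
    rw [pl_mul_sum]
    refine Finset.sum_congr rfl fun J _ => ?_
    rw [← Algebra.smul_def, smul_smul]
  have h2 : (∑ i, (d i : B.Z) • (x i * y i) : Lam B r) * ev c =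
      ∑ I : Finset (Fin r), ∑ J : Finset (Fin r),
        (∑ i ∈ I ∩ J, (d i : B.Z) * c (I.erase i) (J.erase i)) • (mon I J : Lam B r) := by
    rw [pl_sum_mul]
    have h3 : ∀ i : Fin r, ((d i : B.Z) • (x i * y i) : Lam B r) * ev c =
        ∑ I : Finset (Fin r), ∑ J : Finset (Fin r),
          ((if i ∈ I ∧ i ∈ J then (d i : B.Z) * c (I.erase i) (J.erase i) else 0) : B.Z) •
            (mon I J : Lam B r) := by
      intro i
      rw [smul_mul_assoc, xy_mul_ev, pl_smul_sum]
      refine Finset.sum_congr rfl fun I _ => ?_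
      rw [pl_smul_sum]
      refine Finset.sum_congr rfl fun J _ => ?_
      rw [smul_smul, mul_ite, mul_zero]
    rw [Finset.sum_congr rfl fun i _ => h3 i, Finset.sum_comm]
    refine Finset.sum_congr rfl fun I _ => ?_
    rw [Finset.sum_comm]
    refine Finset.sum_congr rfl fun J _ => ?_
    rw [← pl_sum_smul, ← Finset.sum_filter]
    congr 1
    apply Finset.sum_congr _ fun _ _ => rfl
    ext i
    rw [Finset.mem_filter, Finset.mem_inter]
    simp
  rw [polT, add_mul, h1, h2, ev, ← Finset.sum_add_distrib]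
  refine Finset.sum_congr rfl fun I _ => ?_
  rw [← Finset.sum_add_distrib]
  refine Finset.sum_congr rfl fun J _ => ?_
  rw [← add_smul, Lop]

theorem polT_pow_mul_ev (d : Fin r → ℕ) (c : Finset (Fin r) → Finset (Fin r) → B.Z) (k : ℕ) :
    polT d ^ k * ev c = ev ((Lop d)^[k] c) := by
  induction k with
  | zero => rw [pow_zero, one_mul, Function.iterate_zero, id]
  | succ k ih => rw [pow_succ', mul_assoc, ih, polT_mul_ev, Function.iterate_succ_apply']

end Pc0b458D
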