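import Pool.Agent.Lib.Pc0b458D.Mul

/-!
# The coefficients of a class
-/

universe u

namespace Pc0b458D

open Pc0b458Z

variable {B : NumAb.{u}} {r : ℕ}

theorem ev_add (c c' : Finset (Fin r) → Finset (Fin r) → B.Z) :
    ev (fun I J => c I J + c' I J) = ev c + ev c' := by
  unfold ev
  rw [← Finset.sum_add_distrib]
  refine Finset.sum_congr rfl fun I _ => ?_
  rw [← Finset.sum_add_distrib]
  exact Finset.sum_congr rfl fun J _ => add_smul _ _ _

theorem IsRep.add {n : ℕ} {c c' : Finset (Fin r) → Finset (Fin r) → B.Z} (h : IsRep B r n c)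
    (h' : IsRep B r n c') : IsRep B r n fun I J => c I J + c' I J := by
  intro I J hne
  by_cases h1 : c I J = 0
  · have h2 : c' I J ≠ 0 := by
      intro h2
      apply hne
      show c I J + c' I J = 0
      rw [h1, h2, add_zero]
    obtain ⟨a1, a2, a3⟩ := h' I J h2
    refine ⟨a1, a2, ?_⟩
    show c I J + c' I J ∈ _
    rw [h1, zero_add]
    exact a3
  · obtain ⟨a1, a2, a3⟩ := h I J h1
    refine ⟨a1, a2, ?_⟩
    show c I J + c' I J ∈ _
    by_cases h2 : c' I J = 0
    · rw [h2, add_zero]
      exact a3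
    · exact B.add_mem _ _ a3 _ (h' I J h2).2.2

theorem ev_zero : ev (fun _ _ => 0 : Finset (Fin r) → Finset (Fin r) → B.Z) = 0 := by
  unfold ev
  refine Finset.sum_eq_zero fun I _ => Finset.sum_eq_zero fun J _ => zero_smul _ _

theorem ev_single (b : B.Z) (I J : Finset (Fin r)) :
    ev (fun I' J' => if I' = I ∧ J' = J then b else 0) = b • mon I J := by
  unfold ev
  rw [Finset.sum_eq_single I, Finset.sum_eq_single J]
  · beta_reduce
    rw [if_pos ⟨rfl, rfl⟩]
  · intro J' _ h
    beta_reduce
    rw [if_neg fun h' : I = I ∧ J' = J => h h'.2, zero_smul]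
  · intro h
    exact absurd (Finset.mem_univ J) h
  · intro I' _ h
    refine Finset.sum_eq_zero fun J' _ => ?_
    beta_reduce
    rw [if_neg fun h' : I' = I ∧ J' = J => h h'.1, zero_smul]
  · intro h
    exact absurd (Finset.mem_univ I) h

/-- products of the `y j` -/
theorem prod_y (m : List (Fin r)) : ((m.map y).prod : Lam B r) = 0 ∨
    ∃ (s : ℤ) (J : Finset (Fin r)), (s = 1 ∨ s = -1) ∧ J.card = m.length ∧
      ((m.map y).prod : Lam B r) = s • mon ∅ J := by
  induction m with
  | nil =>
    right
    refine ⟨1, ∅, Or.inl rfl, rfl, ?_⟩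
    rw [mon_empty, one_zsmul]
    rfl
  | cons i m ih =>
    rw [List.map_cons, List.prod_cons]
    rcases ih with h | ⟨s, J, hs, hJ, h⟩
    · left
      rw [h, mul_zero]
    · rw [h, mul_smul_comm]
      by_cases hi : i ∈ J
      · left
        rw [y_mul_mon_mem hi, smul_zero]
      · right
        obtain ⟨s', hs', h'⟩ := y_mul_mon (B := B) (I := ∅) hi
        refine ⟨s * s', insert i J, ?_, ?_, ?_⟩
        · rcases hs with rfl | rfl <;> rcases hs' with rfl | rfl <;> simp
        · rw [Finset.card_insert_of_notMem hi, hJ, List.length_cons]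
        · rw [h', smul_smul]

/-- products of the `x i` and the `y j` -/
theorem prod_xy (l m : List (Fin r)) : ((l.map x).prod * (m.map y).prod : Lam B r) = 0 ∨
    ∃ (s : ℤ) (I J : Finset (Fin r)), (s = 1 ∨ s = -1) ∧ I.card = l.length ∧
      J.card = m.length ∧ ((l.map x).prod * (m.map y).prod : Lam B r) = s • mon I J := by
  induction l with
  | nil =>
    rw [List.map_nil, List.prod_nil, one_mul]
    rcases prod_y m with h | ⟨s, J, hs, hJ, h⟩
    · exact Or.inl h
    · exact Or.inr ⟨s, ∅, J, hs, rfl, hJ, h⟩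
  | cons i l ih =>
    rw [List.map_cons, List.prod_cons, mul_assoc]
    rcases ih with h | ⟨s, I, J, hs, hI, hJ, h⟩
    · left
      rw [h, mul_zero]
    · rw [h, mul_smul_comm]
      by_cases hi : i ∈ I
      · left
        rw [x_mul_mon_mem hi, smul_zero]
      · right
        obtain ⟨s', hs', h'⟩ := x_mul_mon (B := B) (J := J) hi
        refine ⟨s * s', insert i I, J, ?_, ?_, hJ, ?_⟩
        · rcases hs with rfl | rfl <;> rcases hs' with rfl | rfl <;> simp
        · rw [Finset.card_insert_of_notMem hi, hI, List.length_cons]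
        · rw [h', smul_smul]

theorem exists_rep {n : ℕ} {z : Lam B r} (h : Typ n z) :
    ∃ c, IsRep B r n c ∧ ev c = z := by
  induction h with
  | @base k b hb l m hlm =>
    rcases prod_xy (B := B) l m with h | ⟨s, I, J, hs, hI, hJ, h⟩
    · refine ⟨fun _ _ => 0, fun I J h0 => absurd rfl h0, ?_⟩
      rw [ev_zero, h, smul_zero]
    · have hsb : s • b ∈ B.cod k := by
        rcases hs with rfl | rfl
        · rw [one_zsmul]
          exact hb
        · rw [neg_one_zsmul]
          exact B.neg_mem _ _ hb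
      refine ⟨fun I' J' => if I' = I ∧ J' = J then s • b else 0, fun I' J' h0 => ?_, ?_⟩
      · by_cases hc : I' = I ∧ J' = J
        · obtain ⟨rfl, rfl⟩ := hc
          refine ⟨by rw [hI, hJ, hlm], by omega, ?_⟩
          show (if I' = I' ∧ J' = J' then s • b else 0) ∈ _
          rw [if_pos ⟨rfl, rfl⟩, hI, Nat.add_sub_cancel]
          exact hsb
        · exact absurd (if_neg hc) h0
      · rw [ev_single, h]
        rcases hs with rfl | rfl
        · rw [one_zsmul, one_zsmul]
        · rw [neg_one_zsmul, neg_one_zsmul]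
          rw [Algebra.smul_def, Algebra.smul_def, map_neg, neg_mul, mul_neg]
  | add _ _ ih ih' =>
    obtain ⟨c, hc, rfl⟩ := ih
    obtain ⟨c', hc', rfl⟩ := ih'
    exact ⟨_, hc.add hc', ev_add c c'⟩

end Pc0b458D
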