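import Mathlib

/-!
# Reordering a sum over pairs of sets
-/

namespace Pc0b458D

open Finset

theorem sum_pairs {r : ℕ} (f : Finset (Fin r) → Finset (Fin r) → ℚ) :
    ∑ I, ∑ J, f I J = ∑ P, ∑ Q, if Disjoint P Q then
      ∑ S ∈ ((P ∪ Q)ᶜ).powerset, f (P ∪ S) (Q ∪ S) else 0 := by
  have hL : ∑ I, ∑ J, f I J = ∑ p : Finset (Fin r) × Finset (Fin r), f p.1 p.2 := by
    rw [Fintype.sum_prod_type]
  have hR : (∑ P, ∑ Q, if Disjoint P Q then
      ∑ S ∈ ((P ∪ Q)ᶜ).powerset, f (P ∪ S) (Q ∪ S) else 0) =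
      ∑ q ∈ (univ.filter fun q : Finset (Fin r) × Finset (Fin r) => Disjoint q.1 q.2).sigma
        (fun q => ((q.1 ∪ q.2)ᶜ).powerset), f (q.1.1 ∪ q.2) (q.1.2 ∪ q.2) := by
    rw [sum_sigma, sum_filter, Fintype.sum_prod_type]
  rw [hL, hR]
  symm
  refine sum_bij' (fun q _ => (q.1.1 ∪ q.2, q.1.2 ∪ q.2))
    (fun p _ => ⟨(p.1 \ p.2, p.2 \ p.1), p.1 ∩ p.2⟩) ?_ ?_ ?_ ?_ ?_
  · intro q _
    exact mem_univ _
  · intro p _
    simp only [mem_sigma, mem_filter, mem_univ, true_and, mem_powerset]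
    refine ⟨disjoint_sdiff_sdiff, ?_⟩
    intro a ha
    simp only [mem_inter] at ha
    simp [ha.1, ha.2]
  · rintro ⟨⟨P, Q⟩, S⟩ hq
    simp only [mem_sigma, mem_filter, mem_univ, true_and, mem_powerset] at hq
    obtain ⟨hPQ, hS⟩ := hq
    have h1 : ∀ a, a ∈ P → a ∉ Q := fun a ha hb => (disjoint_left.mp hPQ) ha hb
    have h2 : ∀ a, a ∈ S → a ∉ P ∧ a ∉ Q := by
      intro a ha
      have := hS ha
      simpa using this
    have e1 : (P ∪ S) \ (Q ∪ S) = P := by
      ext a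
      simp only [mem_sdiff, mem_union]
      constructor
      · rintro ⟨h | h, h'⟩
        · exact h
        · exact absurd (Or.inr h) h'
      · intro h
        refine ⟨Or.inl h, ?_⟩
        rintro (h' | h')
        · exact h1 a h h'
        · exact (h2 a h').1 h
    have e2 : (Q ∪ S) \ (P ∪ S) = Q := by
      ext a
      simp only [mem_sdiff, mem_union]
      constructor
      · rintro ⟨h | h, h'⟩
        · exact h
        · exact absurd (Or.inr h) h'
      · intro h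
        refine ⟨Or.inl h, ?_⟩
        rintro (h' | h')
        · exact h1 a h' h
        · exact (h2 a h').2 h
    have e3 : (P ∪ S) ∩ (Q ∪ S) = S := by
      ext a
      simp only [mem_inter, mem_union]
      constructor
      · rintro ⟨h | h, h' | h'⟩
        · exact absurd h' (h1 a h)
        · exact h'
        · exact h
        · exact h
      · intro h
        exact ⟨Or.inr h, Or.inr h⟩
    simp only [e1, e2, e3]
  · rintro ⟨I, J⟩ _
    simp only [sdiff_union_inter, Prod.mk.injEq, true_and]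
    rw [inter_comm, sdiff_union_inter]
  · intro q _
    rfl

theorem compl_left {r : ℕ} {P Q S : Finset (Fin r)} (hPQ : Disjoint P Q) (hS : S ⊆ (P ∪ Q)ᶜ) :
    (P ∪ S)ᶜ = Q ∪ ((P ∪ Q)ᶜ \ S) := by
  have h1 : ∀ a, a ∈ P → a ∉ Q := fun a ha hb => (disjoint_left.mp hPQ) ha hb
  have h2 : ∀ a, a ∈ S → a ∉ P ∧ a ∉ Q := by
    intro a ha
    have := hS ha
    simpa using this
  ext a
  have h1a := h1 a
  have h2a := h2 a
  simp only [mem_compl, mem_union, mem_sdiff]
  tauto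

theorem compl_right {r : ℕ} {P Q S : Finset (Fin r)} (hPQ : Disjoint P Q) (hS : S ⊆ (P ∪ Q)ᶜ) :
    (Q ∪ S)ᶜ = P ∪ ((P ∪ Q)ᶜ \ S) := by
  have h1 : ∀ a, a ∈ P → a ∉ Q := fun a ha hb => (disjoint_left.mp hPQ) ha hb
  have h2 : ∀ a, a ∈ S → a ∉ P ∧ a ∉ Q := by
    intro a ha
    have := hS ha
    simpa using this
  ext a
  have h1a := h1 a
  have h2a := h2 a
  simp only [mem_compl, mem_union, mem_sdiff]
  tauto

end Pc0b458D
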