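import Pool.Agent.Lib.Pc0b458D.Defs

/-!
# The monodromy of a monomial
-/

universe u

namespace Pc0b458D

open Pc0b458Z

variable {B : NumAb.{u}} {r : ℕ}

/-- the monodromy as a homomorphism of algebras -/
noncomputable def monoHom : Lam B r →ₐ[B.Z] Lam B r := ExteriorAlgebra.map (monoOne B.Z r)

theorem mono_eq (z : Lam B r) : mono z = monoHom z := rfl

theorem mono_add (z w : Lam B r) : mono (z + w) = mono z + mono w := by
  rw [mono_eq, mono_eq, mono_eq, map_add]

theorem mono_smul (b : B.Z) (z : Lam B r) : mono (b • z) = b • mono z := by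
  rw [mono_eq, mono_eq, map_smul]

theorem monoHom_iota (v : Fin r × Bool → B.Z) : monoHom (iota v : Lam B r) = iota (monoOne B.Z r v) :=
  ExteriorAlgebra.map_apply_ι (monoOne B.Z r) v

theorem monoOne_x (i : Fin r) :
    monoOne B.Z r (Pi.single (i, true) (1 : B.Z)) = Pi.single (i, true) 1 + Pi.single (i, false) 1 := by
  ext ⟨j, b⟩
  cases b <;> by_cases h : j = i <;> simp [monoOne, h]

theorem monoOne_y (i : Fin r) :
    monoOne B.Z r (Pi.single (i, false) (1 : B.Z)) = Pi.single (i, false) 1 := by
  ext ⟨j, b⟩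
  cases b <;> by_cases h : j = i <;> simp [monoOne, h]

theorem monoHom_x (i : Fin r) : monoHom (x i : Lam B r) = x i + y i := by
  unfold x y
  rw [monoHom_iota, monoOne_x, map_add]

theorem monoHom_y (i : Fin r) : monoHom (y i : Lam B r) = y i := by
  unfold y
  rw [monoHom_iota, monoOne_y]

theorem y_sq (i : Fin r) : (y i : Lam B r) * y i = 0 := ExteriorAlgebra.ι_sq_zero _

theorem monoHom_blk_of_mem {I J : Finset (Fin r)} {i : Fin r} (h : i ∈ I \ J) :
    monoHom (blk I J i : Lam B r) = x i + y i := by
  obtain ⟨h1, h2⟩ := Finset.mem_sdiff.1 h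
  rw [blk, if_pos h1, if_neg h2, mul_one, monoHom_x]

theorem monoHom_blk_of_notMem {I J : Finset (Fin r)} {i : Fin r} (h : i ∉ I \ J) :
    monoHom (blk I J i : Lam B r) = blk I J i := by
  rw [Finset.mem_sdiff] at h
  by_cases hI : i ∈ I
  · have hJ : i ∈ J := by tauto
    rw [blk, if_pos hI, if_pos hJ, map_mul, monoHom_x, monoHom_y, add_mul, y_sq, add_zero]
  · by_cases hJ : i ∈ J
    · rw [blk, if_neg hI, if_pos hJ, map_mul, map_one, monoHom_y]
    · rw [blk, if_neg hI, if_neg hJ, map_mul, map_one]

theorem lam_mul_sum (a : Lam B r) (s : Finset (Finset (Fin r))) (f : Finset (Fin r) → Lam B r) :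
    a * ∑ i ∈ s, f i = ∑ i ∈ s, a * f i := Finset.mul_sum s f a

theorem blk_congr {I J I' J' : Finset (Fin r)} {i : Fin r} (h1 : i ∈ I ↔ i ∈ I')
    (h2 : i ∈ J ↔ i ∈ J') : (blk I J i : Lam B r) = blk I' J' i := by
  rw [blk, blk]
  simp only [h1, h2]

theorem mono_list (I J : Finset (Fin r)) (l : List (Fin r)) (hl : l.Nodup) :
    monoHom ((l.map (blk I J)).prod : Lam B r) =
      ∑ R ∈ ((I \ J) ∩ l.toFinset).powerset, (l.map (blk (I \ R) (J ∪ R))).prod := by
  induction l with
  | nil => simp
  | cons i l ih =>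
    obtain ⟨hi, hl'⟩ := List.nodup_cons.1 hl
    have hil : i ∉ l.toFinset := by simpa using hi
    rw [List.map_cons, List.prod_cons, map_mul, ih hl']
    by_cases h : i ∈ I \ J
    · have e1 : (I \ J) ∩ (i :: l).toFinset = insert i ((I \ J) ∩ l.toFinset) := by
        rw [List.toFinset_cons, Finset.inter_insert_of_mem h]
      have e2 : i ∉ (I \ J) ∩ l.toFinset := fun h' => hil (Finset.mem_inter.1 h').2
      obtain ⟨h1, h2⟩ := Finset.mem_sdiff.1 h
      rw [e1, Finset.sum_powerset_insert e2, monoHom_blk_of_mem h, add_mul, lam_mul_sum,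
        lam_mul_sum]
      congr 1
      · refine Finset.sum_congr rfl fun R hR => ?_
        have hiR : i ∉ R := fun h' => e2 (Finset.mem_powerset.1 hR h')
        rw [List.map_cons, List.prod_cons]
        congr 1
        rw [blk, if_pos (by simp [h1, hiR]), if_neg (by simp [h2, hiR]), mul_one]
      · refine Finset.sum_congr rfl fun R hR => ?_
        rw [List.map_cons, List.prod_cons]
        congr 1
        · rw [blk, if_neg (by simp), if_pos (by simp), one_mul]
        · congr 1
          refine List.map_congr_left fun j hj => ?_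
          have hji : j ≠ i := by
            rintro rfl
            exact hi hj
          exact blk_congr (by simp [hji]) (by simp [hji])
    · have e1 : (I \ J) ∩ (i :: l).toFinset = (I \ J) ∩ l.toFinset := by
        rw [List.toFinset_cons, Finset.inter_insert_of_notMem h]
      rw [e1, monoHom_blk_of_notMem h, lam_mul_sum]
      refine Finset.sum_congr rfl fun R hR => ?_
      have hiR : i ∉ R := fun h' => h (Finset.mem_inter.1 (Finset.mem_powerset.1 hR h')).1
      rw [List.map_cons, List.prod_cons]
      congr 1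
      exact blk_congr (by simp [hiR]) (by simp [hiR])

theorem mono_mon (I J : Finset (Fin r)) :
    mono (mon I J : Lam B r) = ∑ R ∈ (I \ J).powerset, mon (I \ R) (J ∪ R) := by
  have h := mono_list (B := B) I J (List.finRange r) (List.nodup_finRange r)
  have e : (List.finRange r).toFinset = Finset.univ := by
    ext i; simp
  rw [e, Finset.inter_univ] at h
  rw [mono_eq]
  unfold mon
  simp only [List.ofFn_eq_map]
  exact h

end Pc0b458D
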