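import Pool.Agent.Lib.Pc0b458D.Inj
import Pool.Agent.Lib.Pc0b458D.Mono

/-!
# Classes which are invariant under the monodromy are symmetric
-/

universe u

namespace Pc0b458D

open Pc0b458Z

variable {B : NumAb.{u}} {r : ℕ}

/-- the alternating sum over the subsets -/
theorem sum_neg_one {R : Type u} [CommRing R] (A : Finset (Fin r)) :
    ∑ U ∈ A.powerset, (-1 : R) ^ U.card = if A = ∅ then 1 else 0 := by
  have h := congrArg (Int.cast : ℤ → R) (Finset.sum_powerset_neg_one_pow_card (x := A))
  push_cast at h
  rw [h]

/-- inclusion and exclusion -/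
theorem incl_excl {R : Type u} [CommRing R] {W : Finset (Fin r)} {m : ℕ} (hW : W.card = 2 * m)
    (f : Finset (Fin r) → R)
    (hf : ∀ U ⊆ W, U.card < m → ∑ T ∈ W.powerset with U ⊆ T ∧ T.card = m, f T = 0)
    {P : Finset (Fin r)} (hP : P ⊆ W) (hPm : P.card = m) : f (W \ P) = (-1) ^ m * f P := by
  classical
  -- both sides are the sum over `U ⊆ P ∩ T`
  have h1 : ∑ U ∈ P.powerset, (-1 : R) ^ U.card *
      (∑ T ∈ W.powerset with U ⊆ T ∧ T.card = m, f T) = (-1) ^ m * f P := by
    rw [Finset.sum_eq_single P]
    · rw [hPm]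
      congr 1
      rw [Finset.sum_eq_single P]
      · intro T hT hTP
        rw [Finset.mem_filter] at hT
        exact absurd (Finset.eq_of_subset_of_card_le hT.2.1 (by rw [hT.2.2, hPm])).symm hTP
      · intro h
        exact absurd (Finset.mem_filter.2 ⟨Finset.mem_powerset.2 hP, subset_rfl, hPm⟩) h
    · intro U hU hUP
      rw [Finset.mem_powerset] at hU
      rw [hf U (hU.trans hP) ?_, mul_zero]
      rw [← hPm]
      exact Finset.card_lt_card (Finset.ssubset_iff_subset_ne.2 ⟨hU, hUP⟩)
    · intro h
      exact absurd (Finset.mem_powerset_self P) h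
  have h2 : ∑ U ∈ P.powerset, (-1 : R) ^ U.card *
      (∑ T ∈ W.powerset with U ⊆ T ∧ T.card = m, f T) = f (W \ P) := by
    have h3 : ∀ U ∈ P.powerset, (-1 : R) ^ U.card *
        (∑ T ∈ W.powerset with U ⊆ T ∧ T.card = m, f T) =
        ∑ T ∈ W.powerset with T.card = m, if U ⊆ T then (-1 : R) ^ U.card * f T else 0 := by
      intro U _
      rw [Finset.mul_sum, ← Finset.sum_filter]
      refine Finset.sum_congr ?_ fun _ _ => rfl
      ext T
      simp only [Finset.mem_filter, Finset.mem_powerset]
      tauto
    rw [Finset.sum_congr rfl h3, Finset.sum_comm]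
    have h4 : ∀ T ∈ W.powerset.filter (fun T => T.card = m),
        (∑ U ∈ P.powerset, if U ⊆ T then (-1 : R) ^ U.card * f T else 0) =
        if T = W \ P then f T else 0 := by
      intro T hT
      rw [Finset.mem_filter, Finset.mem_powerset] at hT
      have h5 : (∑ U ∈ P.powerset, if U ⊆ T then (-1 : R) ^ U.card * f T else 0) =
          (∑ U ∈ (P ∩ T).powerset, (-1 : R) ^ U.card) * f T := by
        rw [Finset.sum_mul, ← Finset.sum_filter]
        refine Finset.sum_congr ?_ fun _ _ => rfl
        ext U
        simp only [Finset.mem_filter, Finset.mem_powerset, Finset.subset_inter_iff]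
      rw [h5, sum_neg_one]
      by_cases h : P ∩ T = ∅
      · have h6 : T = W \ P := by
          refine Finset.eq_of_subset_of_card_le ?_ ?_
          · intro i hi
            rw [Finset.mem_sdiff]
            refine ⟨hT.1 hi, fun hiP => ?_⟩
            have : i ∈ P ∩ T := Finset.mem_inter.2 ⟨hiP, hi⟩
            rw [h] at this
            exact absurd this (Finset.notMem_empty i)
          · rw [Finset.card_sdiff_of_subset hP, hT.2, hW, hPm]
            omega
        rw [if_pos h, if_pos h6, one_mul]
      · have h6 : T ≠ W \ P := by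
          rintro rfl
          apply h
          ext i
          simp only [Finset.mem_inter, Finset.mem_sdiff, Finset.notMem_empty, iff_false]
          tauto
        rw [if_neg h, if_neg h6, zero_mul]
    rw [Finset.sum_congr rfl h4, Finset.sum_ite_eq']
    rw [if_pos]
    rw [Finset.mem_filter, Finset.mem_powerset, Finset.card_sdiff_of_subset hP, hW, hPm]
    exact ⟨Finset.sdiff_subset, by omega⟩
  rw [← h2, h1]

/-- the monodromy on the coefficients -/
theorem mono_ev (c : Finset (Fin r) → Finset (Fin r) → B.Z) :
    mono (ev c) = ev fun I J => ∑ R ∈ (J \ I).powerset, c (I ∪ R) (J \ R) := by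
  classical
  have hsum : ∀ {ι : Type} (s : Finset ι) (g : ι → Lam B r),
      mono (∑ i ∈ s, g i) = ∑ i ∈ s, mono (g i) := by
    intro ι s g
    induction s using Finset.induction_on with
    | empty =>
      rw [Finset.sum_empty, Finset.sum_empty]
      have h := mono_smul (0 : B.Z) (0 : Lam B r)
      rwa [zero_smul, zero_smul] at h
    | insert a s ha ih => rw [Finset.sum_insert ha, Finset.sum_insert ha, mono_add, ih]
  have h1 : mono (ev c) = ∑ I, ∑ J, ∑ R ∈ (I \ J).powerset, c I J • mon (I \ R) (J ∪ R) := by
    unfold ev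
    rw [hsum]
    refine Finset.sum_congr rfl fun I _ => ?_
    rw [hsum]
    refine Finset.sum_congr rfl fun J _ => ?_
    rw [mono_smul, mono_mon, Finset.smul_sum]
  rw [h1]
  unfold ev
  simp only [Finset.sum_smul]
  rw [← Finset.sum_product', ← Finset.sum_product']
  rw [Finset.sum_sigma', Finset.sum_sigma']
  refine Finset.sum_bij' (fun x _ => ⟨(x.1.1 \ x.2, x.1.2 ∪ x.2), x.2⟩)
    (fun x _ => ⟨(x.1.1 ∪ x.2, x.1.2 \ x.2), x.2⟩) ?_ ?_ ?_ ?_ ?_
  · rintro ⟨⟨I, J⟩, R⟩ h
    simp only [Finset.mem_sigma, Finset.mem_product, Finset.mem_univ, Finset.mem_powerset,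
      true_and, and_self] at h ⊢
    intro i hi
    have := h hi
    simp only [Finset.mem_sdiff, Finset.mem_union] at this ⊢
    tauto
  · rintro ⟨⟨I, J⟩, R⟩ h
    simp only [Finset.mem_sigma, Finset.mem_product, Finset.mem_univ, Finset.mem_powerset,
      true_and, and_self] at h ⊢
    intro i hi
    have := h hi
    simp only [Finset.mem_sdiff, Finset.mem_union] at this ⊢
    tauto
  · rintro ⟨⟨I, J⟩, R⟩ h
    simp only [Finset.mem_sigma, Finset.mem_product, Finset.mem_univ, Finset.mem_powerset,
      true_and, and_self] at h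
    have hI : I \ R ∪ R = I := by
      ext i
      have := @h i
      simp only [Finset.mem_sdiff, Finset.mem_union] at this ⊢
      tauto
    have hJ : (J ∪ R) \ R = J := by
      ext i
      have := @h i
      simp only [Finset.mem_sdiff, Finset.mem_union] at this ⊢
      tauto
    simp only [hI, hJ]
  · rintro ⟨⟨I, J⟩, R⟩ h
    simp only [Finset.mem_sigma, Finset.mem_product, Finset.mem_univ, Finset.mem_powerset,
      true_and, and_self] at h
    have hI : (I ∪ R) \ R = I := by
      ext i
      have := @h i
      simp only [Finset.mem_sdiff, Finset.mem_union] at this ⊢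
      tauto
    have hJ : J \ R ∪ R = J := by
      ext i
      have := @h i
      simp only [Finset.mem_sdiff, Finset.mem_union] at this ⊢
      tauto
    simp only [hI, hJ]
  · rintro ⟨⟨I, J⟩, R⟩ h
    simp only [Finset.mem_sigma, Finset.mem_product, Finset.mem_univ, Finset.mem_powerset,
      true_and, and_self] at h
    have hI : I \ R ∪ R = I := by
      ext i
      have := @h i
      simp only [Finset.mem_sdiff, Finset.mem_union] at this ⊢
      tauto
    have hJ : (J ∪ R) \ R = J := by
      ext i
      have := @h i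
      simp only [Finset.mem_sdiff, Finset.mem_union] at this ⊢
      tauto
    simp only [hI, hJ]

/-- differences of double sums -/
theorem sum_sub_smul {R : Type u} {M : Type u} [CommRing R] [Ring M] [Algebra R M]
    (a c : Finset (Fin r) → Finset (Fin r) → R) (m : Finset (Fin r) → Finset (Fin r) → M) :
    ∑ I, ∑ J, (a I J - c I J) • m I J =
      ∑ I, ∑ J, a I J • m I J - ∑ I, ∑ J, c I J • m I J := by
  simp only [sub_smul, Finset.sum_sub_distrib]

theorem swap {n : ℕ} {c : Finset (Fin r) → Finset (Fin r) → B.Z} (hc : IsRep B r n c)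
    (h : mono (ev c) = ev c) {P Q S : Finset (Fin r)} (hPQ : Disjoint P Q) (hS : Disjoint S (P ∪ Q))
    (hcard : P.card = Q.card) : c (Q ∪ S) (P ∪ S) = (-1) ^ P.card * c (P ∪ S) (Q ∪ S) := by
  classical
  -- the coefficients are invariant
  have hinv : ∀ I J, ∑ R ∈ (J \ I).powerset, c (I ∪ R) (J \ R) = c I J := by
    have h1 : ev (fun I J => ∑ R ∈ (J \ I).powerset, c (I ∪ R) (J \ R) - c I J) = (0 : Lam B r) := by
      have h2 : ev (fun I J => ∑ R ∈ (J \ I).powerset, c (I ∪ R) (J \ R) - c I J) =
          ev (fun I J => ∑ R ∈ (J \ I).powerset, c (I ∪ R) (J \ R)) - (ev c : Lam B r) := by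
        exact sum_sub_smul (fun I J => ∑ R ∈ (J \ I).powerset, c (I ∪ R) (J \ R)) c
          fun I J => (mon I J : Lam B r)
      rw [h2, ← mono_ev, h, sub_self]
    intro I J
    exact sub_eq_zero.1 (ev_inj_all h1 I J)
  set W := P ∪ Q with hW
  have hWcard : W.card = 2 * P.card := by
    rw [hW, Finset.card_union_of_disjoint hPQ, ← hcard]; ring
  set f : Finset (Fin r) → B.Z := fun T => c (T ∪ S) ((W \ T) ∪ S) with hf
  have hf0 : ∀ T ⊆ W, T.card ≠ P.card → f T = 0 := by
    intro T hT hne
    by_contra hcon
    have h1 := (hc _ _ hcon).1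
    have hd1 : Disjoint T S := (hS.mono_right hT).symm
    have hd2 : Disjoint (W \ T) S := (hS.mono_right Finset.sdiff_subset).symm
    rw [Finset.card_union_of_disjoint hd1, Finset.card_union_of_disjoint hd2,
      Finset.card_sdiff_of_subset hT, hWcard] at h1
    have h2 : T.card ≤ W.card := Finset.card_le_card hT
    omega
  have key := incl_excl (P := P) hWcard f (fun U hU hUm => ?_) Finset.subset_union_left rfl
  · have hQ : W \ P = Q := by
      rw [hW, Finset.union_sdiff_cancel_left hPQ]
    have hP : W \ Q = P := by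
      rw [hW, Finset.union_sdiff_cancel_right hPQ]
    rw [hQ, hf] at key
    simp only [hP, hQ] at key
    exact key
  · have h1 := hinv (U ∪ S) ((W \ U) ∪ S)
    have h2 : ((W \ U) ∪ S) \ (U ∪ S) = W \ U := by
      ext i
      have := @Finset.disjoint_left.1 hS i
      simp only [Finset.mem_sdiff, Finset.mem_union] at this ⊢
      tauto
    have h3 : c (U ∪ S) (W \ U ∪ S) = 0 := hf0 U hU hUm.ne
    rw [h2, h3] at h1
    have h4 : ∑ T ∈ W.powerset with U ⊆ T ∧ T.card = P.card, f T =
        ∑ T ∈ W.powerset with U ⊆ T, f T := by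
      refine Finset.sum_subset ?_ ?_
      · intro T hT
        rw [Finset.mem_filter] at hT ⊢
        exact ⟨hT.1, hT.2.1⟩
      · intro T hT hT'
        rw [Finset.mem_filter] at hT hT'
        refine hf0 T (Finset.mem_powerset.1 hT.1) fun h5 => hT' ⟨hT.1, hT.2, h5⟩
    rw [h4, ← h1]
    refine Finset.sum_bij' (fun T _ => T \ U) (fun R _ => U ∪ R) ?_ ?_ ?_ ?_ ?_
    · intro T hT
      rw [Finset.mem_filter, Finset.mem_powerset] at hT
      rw [Finset.mem_powerset]
      exact Finset.sdiff_subset_sdiff hT.1 subset_rfl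
    · intro R hR
      rw [Finset.mem_powerset] at hR
      rw [Finset.mem_filter, Finset.mem_powerset]
      exact ⟨Finset.union_subset hU (hR.trans Finset.sdiff_subset), Finset.subset_union_left⟩
    · intro T hT
      rw [Finset.mem_filter, Finset.mem_powerset] at hT
      exact Finset.union_sdiff_of_subset hT.2
    · intro R hR
      rw [Finset.mem_powerset] at hR
      ext i
      have := @hR i
      simp only [Finset.mem_sdiff, Finset.mem_union] at this ⊢
      tauto
    · intro T hT
      rw [Finset.mem_filter, Finset.mem_powerset] at hT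
      have e1 : U ∪ S ∪ (T \ U) = T ∪ S := by
        ext i
        have := @hT.2 i
        simp only [Finset.mem_sdiff, Finset.mem_union] at this ⊢
        tauto
      have e2 : ((W \ U) ∪ S) \ (T \ U) = (W \ T) ∪ S := by
        ext i
        have h5 := @hT.2 i
        have h6 := @hT.1 i
        have h7 := @Finset.disjoint_left.1 hS i
        simp only [Finset.mem_sdiff, Finset.mem_union] at h5 h6 h7 ⊢
        tauto
      rw [hf, e1, e2]

end Pc0b458D
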