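import Pool.Agent.Lib.Pc0b458D.Tower
import Pool.Agent.Lib.Pc0b458D.OfNum
import Pool.Agent.Lib.Pc0b458D.Rep
import Pool.Agent.Lib.Pc0b458D.Pol
import Pool.Agent.Lib.Pc0b458D.EvMul
import Pool.Agent.Lib.Pc0b458D.Swap
import Pool.Agent.Lib.Pc0b458D.Sum

/-!
# Positivity for abelian varieties with semistable reduction
-/

universe u

namespace Pc0b458D

open Pc0b458Z Finset

variable {X B : NumAb.{u}}

theorem deg_sum {ι : Type} (s : Finset ι) (f : ι → B.Z) :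
    B.deg (∑ i ∈ s, f i) = ∑ i ∈ s, B.deg (f i) := map_sum (LM.degHom B) f s

theorem deg_neg_one_pow (m : ℕ) (z : B.Z) : B.deg ((-1) ^ m * z) = (-1) ^ m * B.deg z := by
  have hn : B.deg (-z) = -B.deg z := map_neg (LM.degHom B) z
  rcases Nat.even_or_odd m with h | h
  · rw [h.neg_one_pow, h.neg_one_pow, one_mul, one_mul]
  · rw [h.neg_one_pow, h.neg_one_pow, neg_one_mul, neg_one_mul, hn]

section

variable {r : ℕ} (d : Fin r → ℕ)

/-- the coefficients of a class with odd part `P`, `Q` -/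
def part (c : Finset (Fin r) → Finset (Fin r) → B.Z) (P Q S : Finset (Fin r)) : B.Z :=
  c (P ∪ S) (Q ∪ S)

theorem part_lop {c : Finset (Fin r) → Finset (Fin r) → B.Z} {P Q S : Finset (Fin r)}
    (hPQ : Disjoint P Q) (hS : S ⊆ (P ∪ Q)ᶜ) :
    part (Lop d c) P Q S = B.L * part c P Q S + ∑ i ∈ S, d i • part c P Q (S.erase i) := by
  have h1 : (P ∪ S) ∩ (Q ∪ S) = S := by
    ext i
    have h2 : i ∈ P → i ∉ Q := fun h h' => Finset.disjoint_left.1 hPQ h h'
    simp only [mem_inter, mem_union]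
    tauto
  rw [part, Lop, h1]
  refine congrArg₂ (· + ·) rfl (Finset.sum_congr rfl fun i hi => ?_)
  have h3 : i ∉ P ∪ Q := by
    have := hS hi
    rwa [mem_compl] at this
  rw [mem_union, not_or] at h3
  rw [part, nsmul_eq_mul, Finset.erase_union_distrib, Finset.erase_union_distrib,
    Finset.erase_eq_of_notMem h3.1, Finset.erase_eq_of_notMem h3.2]

theorem phi_iter (hd : ∀ i, 0 < d i) {c : Finset (Fin r) → Finset (Fin r) → B.Z}
    {P Q : Finset (Fin r)} (hPQ : Disjoint P Q) (k : ℕ) :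
    ((TW (LM.ofNum B) d hd (P ∪ Q)ᶜ.toList).L^[k] (phi (LM.ofNum B) d hd (P ∪ Q)ᶜ.toList
      (part c P Q))) = phi (LM.ofNum B) d hd (P ∪ Q)ᶜ.toList (part ((Lop d)^[k] c) P Q) := by
  induction k with
  | zero => rfl
  | succ k ih =>
    rw [Function.iterate_succ_apply', ih, Function.iterate_succ_apply']
    refine phi_L (Finset.nodup_toList _) fun S hS => ?_
    rw [Finset.toList_toFinset] at hS
    exact part_lop d hPQ hS

theorem part_swap {c : Finset (Fin r) → Finset (Fin r) → B.Z} {P Q : Finset (Fin r)}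
    (hPQ : Disjoint P Q)
    (hsw : ∀ S, Disjoint S (P ∪ Q) → c (Q ∪ S) (P ∪ S) = (-1) ^ P.card * c (P ∪ S) (Q ∪ S))
    (k : ℕ) : ∀ S ⊆ (P ∪ Q)ᶜ, part ((Lop d)^[k] c) Q P S =
      (-1) ^ P.card * part ((Lop d)^[k] c) P Q S := by
  induction k with
  | zero =>
    intro S hS
    exact hsw S (Finset.disjoint_left.2 fun i hi h => (mem_compl.1 (hS hi)) h)
  | succ k ih =>
    intro S hS
    rw [Function.iterate_succ_apply', part_lop d hPQ hS,
      part_lop d hPQ.symm (by rwa [union_comm] at hS), ih S hS, mul_add, Finset.mul_sum]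
    refine congrArg₂ (· + ·) (by ring) (Finset.sum_congr rfl fun i _ => ?_)
    rw [ih _ ((Finset.erase_subset _ _).trans hS), nsmul_eq_mul, nsmul_eq_mul]
    ring

/-- the contribution of the classes with odd part `P`, `Q` or `Q`, `P` -/
theorem term_pos (hd : ∀ i, 0 < d i) {c : Finset (Fin r) → Finset (Fin r) → B.Z} {n k : ℕ}
    (hB : ∀ m ≤ n, 2 * m ≤ B.g → B.Positive m) (hc : IsRep B r n c) (hk : 2 * n + k = B.g + r)
    (h0 : ∀ I J, (Lop d)^[k + 1] c I J = 0)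
    (hsw : ∀ P Q S, Disjoint P Q → Disjoint S (P ∪ Q) → P.card = Q.card →
      c (Q ∪ S) (P ∪ S) = (-1) ^ P.card * c (P ∪ S) (Q ∪ S))
    {P Q : Finset (Fin r)} (hPQ : Disjoint P Q) :
    0 ≤ (-1 : ℚ) ^ n * ∑ S ∈ ((P ∪ Q)ᶜ).powerset, B.deg (part c P Q S *
      part ((Lop d)^[k] c) Q P ((P ∪ Q)ᶜ \ S)) ∧
    ((∃ S ⊆ (P ∪ Q)ᶜ, part c P Q S ≠ 0) →
      0 < (-1 : ℚ) ^ n * ∑ S ∈ ((P ∪ Q)ᶜ).powerset, B.deg (part c P Q S *
        part ((Lop d)^[k] c) Q P ((P ∪ Q)ᶜ \ S))) := by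
  have key : (∃ S ⊆ (P ∪ Q)ᶜ, part c P Q S ≠ 0) →
      0 < (-1 : ℚ) ^ n * ∑ S ∈ ((P ∪ Q)ᶜ).powerset, B.deg (part c P Q S *
        part ((Lop d)^[k] c) Q P ((P ∪ Q)ᶜ \ S)) := by
    rintro ⟨T, hT, hne⟩
    have hdis : ∀ S ⊆ (P ∪ Q)ᶜ, Disjoint P S ∧ Disjoint Q S := by
      intro S hS
      constructor
      · exact Finset.disjoint_left.2 fun i hi h =>
          (mem_compl.1 (hS h)) (mem_union_left _ hi)
      · exact Finset.disjoint_left.2 fun i hi h =>
          (mem_compl.1 (hS h)) (mem_union_right _ hi)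
    have hcard : P.card = Q.card := by
      have h1 := (hc _ _ hne).1
      rw [card_union_of_disjoint (hdis T hT).1, card_union_of_disjoint (hdis T hT).2] at h1
      omega
    have hPn : P.card ≤ n := by
      have h1 := (hc _ _ hne).2.1
      rw [card_union_of_disjoint (hdis T hT).1] at h1
      omega
    have hr : 2 * P.card + ((P ∪ Q)ᶜ).card = r := by
      have h1 := Finset.card_add_card_compl (P ∪ Q)
      rw [card_union_of_disjoint hPQ, Fintype.card_fin] at h1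
      omega
    set l := (P ∪ Q)ᶜ.toList with hl
    have hlf : l.toFinset = (P ∪ Q)ᶜ := by rw [hl, Finset.toList_toFinset]
    have hg : (TW (LM.ofNum B) d hd l).g = B.g + ((P ∪ Q)ᶜ).card := by
      rw [TW_g, hl, Finset.length_toList]
      rfl
    set v := phi (LM.ofNum B) d hd l (part c P Q) with hv
    have hvne : v ≠ 0 := phi_ne (by rw [hlf]; exact hT) hne
    have hvm : v ∈ (TW (LM.ofNum B) d hd l).cod (n - P.card) := by
      refine phi_mem (Finset.nodup_toList _) fun S hS h => ?_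
      rw [hlf] at hS
      obtain ⟨-, h1, h2⟩ := hc _ _ h
      rw [card_union_of_disjoint (hdis S hS).1] at h1 h2
      refine ⟨by omega, Or.inl ?_⟩
      rw [show n - P.card - S.card = n - (P.card + S.card) by omega]
      exact h2
    have hHR := TW_HR (M := LM.ofNum B) (d := d) (hd := hd) (n₀ := n)
      (fun m hm hmg => LM.ofNum_HR B (hB m hm hmg)) l (n - P.card) (by omega) (by rw [hg]; omega)
    have hex : (TW (LM.ofNum B) d hd l).g - 2 * (n - P.card) = k := by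
      rw [hg]
      omega
    have h1 := hHR v hvm (by
      rw [hex, hv, phi_iter d hd hPQ]
      rw [phi_congr (γ' := fun _ => (0 : B.Z)) fun S _ => h0 _ _]
      exact phi_zero _) hvne
    rw [hex, hv, phi_iter d hd hPQ, phi_B (Finset.nodup_toList _)] at h1
    rw [hlf] at h1
    have h2 : ∑ S ∈ ((P ∪ Q)ᶜ).powerset, B.deg (part c P Q S *
        part ((Lop d)^[k] c) Q P ((P ∪ Q)ᶜ \ S)) =
        (-1) ^ P.card * ∑ S ∈ ((P ∪ Q)ᶜ).powerset, B.deg (part c P Q S *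
        part ((Lop d)^[k] c) P Q ((P ∪ Q)ᶜ \ S)) := by
      rw [Finset.mul_sum]
      refine Finset.sum_congr rfl fun S _ => ?_
      rw [part_swap d hPQ (fun S hS => hsw P Q S hPQ hS hcard) k _ Finset.sdiff_subset,
        ← deg_neg_one_pow]
      congr 1
      ring
    rw [h2, ← mul_assoc]
    have h3 : (-1 : ℚ) ^ n * (-1) ^ P.card = (-1) ^ (n - P.card) := by
      rw [← pow_add, show n + P.card = (n - P.card) + 2 * P.card by omega, pow_add, pow_mul]
      norm_num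
    rw [h3]
    exact h1
  refine ⟨?_, key⟩
  by_cases h : ∃ S ⊆ (P ∪ Q)ᶜ, part c P Q S ≠ 0
  · exact (key h).le
  · push Not at h
    have h1 : ∑ S ∈ ((P ∪ Q)ᶜ).powerset, B.deg (part c P Q S *
        part ((Lop d)^[k] c) Q P ((P ∪ Q)ᶜ \ S)) = 0 := by
      refine Finset.sum_eq_zero fun S hS => ?_
      rw [h S (mem_powerset.1 hS), zero_mul, deg_zero]
    rw [h1, mul_zero]

theorem form_pos (hd : ∀ i, 0 < d i) {c : Finset (Fin r) → Finset (Fin r) → B.Z} {n k : ℕ}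
    (hB : ∀ m ≤ n, 2 * m ≤ B.g → B.Positive m) (hc : IsRep B r n c) (hk : 2 * n + k = B.g + r)
    (h0 : ∀ I J, (Lop d)^[k + 1] c I J = 0)
    (hsw : ∀ P Q S, Disjoint P Q → Disjoint S (P ∪ Q) → P.card = Q.card →
      c (Q ∪ S) (P ∪ S) = (-1) ^ P.card * c (P ∪ S) (Q ∪ S))
    (hne : ∃ I J, c I J ≠ 0) :
    0 < (-1 : ℚ) ^ n * B.deg (∑ I, ∑ J, c I J * (Lop d)^[k] c Iᶜ Jᶜ) := by
  have h1 : B.deg (∑ I, ∑ J, c I J * (Lop d)^[k] c Iᶜ Jᶜ) =
      ∑ P, ∑ Q, if Disjoint P Q then ∑ S ∈ ((P ∪ Q)ᶜ).powerset, B.deg (part c P Q S *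
        part ((Lop d)^[k] c) Q P ((P ∪ Q)ᶜ \ S)) else 0 := by
    rw [deg_sum]
    rw [show (∑ I, B.deg (∑ J, c I J * (Lop d)^[k] c Iᶜ Jᶜ)) =
      ∑ I, ∑ J, B.deg (c I J * (Lop d)^[k] c Iᶜ Jᶜ) from
      Finset.sum_congr rfl fun I _ => deg_sum _ _]
    rw [sum_pairs fun I J => B.deg (c I J * (Lop d)^[k] c Iᶜ Jᶜ)]
    refine Finset.sum_congr rfl fun P _ => Finset.sum_congr rfl fun Q _ => ?_
    by_cases hPQ : Disjoint P Q
    · rw [if_pos hPQ, if_pos hPQ]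
      refine Finset.sum_congr rfl fun S hS => ?_
      rw [compl_left hPQ (mem_powerset.1 hS), compl_right hPQ (mem_powerset.1 hS)]
      rfl
    · rw [if_neg hPQ, if_neg hPQ]
  rw [h1, Finset.mul_sum]
  have h2 : ∀ P : Finset (Fin r), (-1 : ℚ) ^ n * (∑ Q, if Disjoint P Q then
      ∑ S ∈ ((P ∪ Q)ᶜ).powerset, B.deg (part c P Q S *
        part ((Lop d)^[k] c) Q P ((P ∪ Q)ᶜ \ S)) else 0) =
      ∑ Q, (-1 : ℚ) ^ n * (if Disjoint P Q then ∑ S ∈ ((P ∪ Q)ᶜ).powerset, B.deg (part c P Q S *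
        part ((Lop d)^[k] c) Q P ((P ∪ Q)ᶜ \ S)) else 0) := fun P => Finset.mul_sum _ _ _
  rw [Finset.sum_congr rfl fun P _ => h2 P]
  have hnn : ∀ P Q : Finset (Fin r), 0 ≤ (-1 : ℚ) ^ n * (if Disjoint P Q then
      ∑ S ∈ ((P ∪ Q)ᶜ).powerset, B.deg (part c P Q S *
        part ((Lop d)^[k] c) Q P ((P ∪ Q)ᶜ \ S)) else 0) := by
    intro P Q
    by_cases h : Disjoint P Q
    · rw [if_pos h]
      exact (term_pos d hd hB hc hk h0 hsw h).1
    · rw [if_neg h, mul_zero]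
  obtain ⟨I, J, hIJ⟩ := hne
  have hPQ : Disjoint (I \ J) (J \ I) :=
    Finset.disjoint_left.2 fun i h h' => (mem_sdiff.1 h').2 (mem_sdiff.1 h).1
  have hpos : 0 < (-1 : ℚ) ^ n * (if Disjoint (I \ J) (J \ I) then
      ∑ S ∈ (((I \ J) ∪ (J \ I))ᶜ).powerset, B.deg (part c (I \ J) (J \ I) S *
        part ((Lop d)^[k] c) (J \ I) (I \ J) (((I \ J) ∪ (J \ I))ᶜ \ S)) else 0) := by
    rw [if_pos hPQ]
    refine (term_pos d hd hB hc hk h0 hsw hPQ).2 ⟨I ∩ J, ?_, ?_⟩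
    · intro i hi
      simp only [mem_inter] at hi
      simp only [mem_compl, mem_union, mem_sdiff]
      tauto
    · have e1 : (I \ J) ∪ (I ∩ J) = I := by
        ext i
        simp only [mem_union, mem_sdiff, mem_inter]
        tauto
      have e2 : (J \ I) ∪ (I ∩ J) = J := by
        ext i
        simp only [mem_union, mem_sdiff, mem_inter]
        tauto
      rw [part, e1, e2]
      exact hIJ
  refine Finset.sum_pos' (fun P _ => Finset.sum_nonneg fun Q _ => hnn P Q) ⟨I \ J, mem_univ _, ?_⟩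
  exact Finset.sum_pos' (fun Q _ => hnn _ Q) ⟨J \ I, mem_univ _, hpos⟩

end

theorem sp_ne (D : Degeneration X B) {n : ℕ} {x : X.Z} {z : Lam B D.r} (hx : x ∈ X.cod n)
    (h0 : x ≠ 0) (h : D.sp n x z) : z ≠ 0 := by
  rintro rfl
  refine h0 (X.num n x hx fun j hj y hy => ?_)
  obtain ⟨w, hw⟩ := D.ex j y hy
  have h1 := D.mul n j x 0 y w h hw
  rw [hj, zero_mul, ← zero_smul B.Z (topT : Lam B D.r)] at h1
  rw [D.deg _ _ h1, deg_zero, mul_zero]

theorem sp_pow (D : Degeneration X B) (k : ℕ) : D.sp k (X.L ^ k) (polT D.d ^ k) := by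
  induction k with
  | zero =>
    rw [pow_zero, pow_zero]
    exact D.one
  | succ k ih =>
    rw [pow_succ, pow_succ]
    exact D.mul k 1 _ _ _ _ ih D.pol

theorem main_pos (D : Degeneration X B) {n : ℕ} (hn : 2 * n ≤ X.g)
    (hB : ∀ m ≤ n, 2 * m ≤ B.g → B.Positive m) : X.Positive n := by
  intro x hx hL hx0
  obtain ⟨z, hz, hzL⟩ := D.prim n hn x hx hL
  obtain ⟨c, hc, rfl⟩ := exists_rep (D.typ _ _ _ hz)
  have hdim := D.dim
  obtain ⟨k, hk⟩ : ∃ k, k = X.g - 2 * n := ⟨_, rfl⟩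
  rw [← hk] at hzL ⊢
  have hk' : 2 * n + k = B.g + D.r := by omega
  rw [polT_pow_mul_ev] at hzL
  have h0 : ∀ I J, (Lop D.d)^[k + 1] c I J = 0 :=
    ev_inj (fun I J h => (hc.lop_iter D.d (k + 1) I J h).1) hzL
  have hsw : ∀ P Q S, Disjoint P Q → Disjoint S (P ∪ Q) → P.card = Q.card →
      c (Q ∪ S) (P ∪ S) = (-1) ^ P.card * c (P ∪ S) (Q ∪ S) :=
    fun P Q S hPQ hS hcard => swap hc (D.inv _ _ _ hz) hPQ hS hcard
  have hne : ∃ I J, c I J ≠ 0 := by
    by_contra h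
    push Not at h
    refine sp_ne D hx hx0 hz ?_
    rw [ev]
    exact Finset.sum_eq_zero fun I _ => Finset.sum_eq_zero fun J _ => by rw [h I J, zero_smul]
  have h1 := D.mul k n _ _ _ _ (sp_pow D k) hz
  have h2 := D.mul n (k + n) _ _ _ _ hz h1
  rw [polT_pow_mul_ev, ev_mul_ev hc (hc.lop_iter D.d k) (by omega),
    show n + (k + n) = X.g by omega] at h2
  have h3 := D.deg _ _ h2
  have h4 := form_pos D.d D.d_pos hB hc hk' h0 hsw hne
  rw [show x * x * X.L ^ k = x * (X.L ^ k * x) by ring, h3]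
  have h5 := mul_pos D.c_pos h4
  rw [show (-1 : ℚ) ^ n * (D.c * B.deg (∑ I, ∑ J, c I J * (Lop D.d)^[k] c Iᶜ Jᶜ)) =
    D.c * ((-1 : ℚ) ^ n * B.deg (∑ I, ∑ J, c I J * (Lop D.d)^[k] c Iᶜ Jᶜ)) by ring]
  exact h5

end Pc0b458D
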