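import Pool.Agent.Lib.Pc0b458D.Defs

/-!
# Products of monomials
-/

universe u

namespace Pc0b458D

open Pc0b458Z

variable {B : NumAb.{u}} {r : ℕ}

theorem iota_sq (v : Fin r × Bool → B.Z) : iota v * iota v = 0 :=
  ExteriorAlgebra.ι_sq_zero v

theorem iota_anti (v w : Fin r × Bool → B.Z) : iota v * iota w = -(iota w * iota v) := by
  have h := iota_sq (v + w)
  rw [map_add, add_mul, mul_add, mul_add, iota_sq, iota_sq, zero_add, add_zero] at h
  exact eq_neg_of_add_eq_zero_left h

namespace MulAux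

/-- The element `p` commutes with all generators up to the sign `s`. -/
def Sgn (p : Lam B r) : Prop :=
  ∃ s : ℤ, (s = 1 ∨ s = -1) ∧ ∀ v : Fin r × Bool → B.Z, iota v * p = s • (p * iota v)

theorem Sgn.one : Sgn (1 : Lam B r) := ⟨1, Or.inl rfl, fun v => by simp⟩

theorem Sgn.iota (w : Fin r × Bool → B.Z) : Sgn (iota w) :=
  ⟨-1, Or.inr rfl, fun v => by rw [iota_anti]; simp⟩

theorem Sgn.mul {p q : Lam B r} (hp : Sgn p) (hq : Sgn q) : Sgn (p * q) := by
  obtain ⟨s, hs, h1⟩ := hp
  obtain ⟨t, ht, h2⟩ := hq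
  refine ⟨s * t, ?_, fun v => ?_⟩
  · rcases hs with rfl | rfl <;> rcases ht with rfl | rfl <;> simp
  · rw [← mul_assoc, h1, smul_mul_assoc, mul_assoc, h2, mul_smul_comm, smul_smul, mul_assoc]

theorem Sgn.list {l : List (Lam B r)} (h : ∀ p ∈ l, Sgn p) : Sgn l.prod := by
  induction l with
  | nil => exact Sgn.one
  | cons a l ih =>
    rw [List.prod_cons]
    exact (h a (by simp)).mul (ih fun p hp => h p (by simp [hp]))

theorem sgn_blk (I J : Finset (Fin r)) (i : Fin r) : Sgn (blk I J i : Lam B r) := by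
  unfold blk
  refine Sgn.mul ?_ ?_
  · split_ifs
    · exact Sgn.iota _
    · exact Sgn.one
  · split_ifs
    · exact Sgn.iota _
    · exact Sgn.one

theorem mon_eq (I J : Finset (Fin r)) :
    (mon I J : Lam B r) = ((List.finRange r).map (blk I J)).prod := by
  unfold mon
  rw [List.ofFn_eq_map]

/-- The splitting of a monomial at the index `i`, for all `I`, `J` at the same time. -/
theorem exists_split (i : Fin r) : ∃ l l' : List (Fin r), i ∉ l ∧ i ∉ l' ∧
    ∀ I J : Finset (Fin r), (mon I J : Lam B r) =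
      (l.map (blk I J)).prod * (blk I J i * (l'.map (blk I J)).prod) := by
  obtain ⟨l, l', h⟩ := List.append_of_mem (List.mem_finRange i)
  have hn := List.nodup_finRange r
  rw [h, List.nodup_append] at hn
  obtain ⟨h1, h2, h3⟩ := hn
  refine ⟨l, l', ?_, (List.nodup_cons.1 h2).1, fun I J => ?_⟩
  · intro hi
    exact h3 i hi i (by simp) rfl
  · rw [mon_eq, h, List.map_append, List.prod_append, List.map_cons, List.prod_cons]

theorem sgn_prod (l : List (Fin r)) (I J : Finset (Fin r)) :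
    Sgn ((l.map (blk I J)).prod : Lam B r) := by
  refine Sgn.list fun p hp => ?_
  obtain ⟨j, -, rfl⟩ := List.mem_map.1 hp
  exact sgn_blk I J j

theorem map_congr {l : List (Fin r)} {i : Fin r} (hi : i ∉ l) {I J I' J' : Finset (Fin r)}
    (hI : ∀ j, j ≠ i → (j ∈ I ↔ j ∈ I')) (hJ : ∀ j, j ≠ i → (j ∈ J ↔ j ∈ J')) :
    (l.map (blk I J) : List (Lam B r)) = l.map (blk I' J') := by
  refine List.map_congr_left fun j hj => ?_
  have hne : j ≠ i := by
    rintro rfl
    exact hi hj
  unfold blk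
  simp only [hI j hne, hJ j hne]

theorem x_anti (i : Fin r) : (y i : Lam B r) * x i = -(x i * y i) := iota_anti _ _

theorem x_sq (i : Fin r) : (x i : Lam B r) * x i = 0 := iota_sq _

theorem y_sq (i : Fin r) : (y i : Lam B r) * y i = 0 := iota_sq _

end MulAux

open MulAux

theorem mon_empty : (mon ∅ ∅ : Lam B r) = 1 := by
  unfold mon blk
  simp

theorem mon_univ : (mon Finset.univ Finset.univ : Lam B r) = topT := by
  unfold mon blk topT
  simp

theorem x_mul_mon_mem {i : Fin r} {I J : Finset (Fin r)} (h : i ∈ I) :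
    x i * (mon I J : Lam B r) = 0 := by
  obtain ⟨l, l', hl, hl', hm⟩ := exists_split (B := B) i
  obtain ⟨s, hs, h1⟩ := sgn_prod (B := B) l I J
  rw [hm I J, ← mul_assoc]
  unfold x at *
  rw [h1, smul_mul_assoc, mul_assoc]
  have h2 : (iota (Pi.single (i, true) 1) : Lam B r) * (blk I J i * (l'.map (blk I J)).prod) =
      0 := by
    unfold blk
    rw [if_pos h, ← mul_assoc, ← mul_assoc]
    unfold x
    rw [iota_sq, zero_mul, zero_mul]
  rw [h2, mul_zero, smul_zero]

theorem x_mul_mon {i : Fin r} {I J : Finset (Fin r)} (h : i ∉ I) :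
    ∃ s : ℤ, (s = 1 ∨ s = -1) ∧ x i * (mon I J : Lam B r) = s • mon (insert i I) J := by
  obtain ⟨l, l', hl, hl', hm⟩ := exists_split (B := B) i
  obtain ⟨s, hs, h1⟩ := sgn_prod (B := B) l I J
  refine ⟨s, hs, ?_⟩
  have hI : ∀ j, j ≠ i → (j ∈ I ↔ j ∈ insert i I) := fun j hj => by simp [hj]
  rw [hm I J, hm (insert i I) J, ← mul_assoc]
  rw [← map_congr hl hI (fun j _ => Iff.rfl), ← map_congr hl' hI (fun j _ => Iff.rfl)]
  have h2 : x i * (l.map (blk I J)).prod = s • ((l.map (blk I J)).prod * (x i : Lam B r)) := h1 _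
  rw [h2, smul_mul_assoc, mul_assoc, ← mul_assoc (x i)]
  have h3 : x i * (blk I J i : Lam B r) = blk (insert i I) J i := by
    unfold blk
    rw [if_neg h, if_pos (Finset.mem_insert_self i I), one_mul]
  rw [h3]

theorem y_mul_mon_mem {i : Fin r} {I J : Finset (Fin r)} (h : i ∈ J) :
    y i * (mon I J : Lam B r) = 0 := by
  obtain ⟨l, l', hl, hl', hm⟩ := exists_split (B := B) i
  obtain ⟨s, hs, h1⟩ := sgn_prod (B := B) l I J
  rw [hm I J, ← mul_assoc]
  have h2 : y i * (l.map (blk I J)).prod = s • ((l.map (blk I J)).prod * (y i : Lam B r)) := h1 _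
  rw [h2, smul_mul_assoc, mul_assoc, ← mul_assoc (y i)]
  have h3 : y i * (blk I J i : Lam B r) = 0 := by
    unfold blk
    rw [if_pos h]
    split_ifs
    · rw [← mul_assoc, x_anti, neg_mul, mul_assoc, y_sq, mul_zero, neg_zero]
    · rw [one_mul, y_sq]
  rw [h3, zero_mul, mul_zero, smul_zero]

theorem y_mul_mon {i : Fin r} {I J : Finset (Fin r)} (h : i ∉ J) :
    ∃ s : ℤ, (s = 1 ∨ s = -1) ∧ y i * (mon I J : Lam B r) = s • mon I (insert i J) := by
  obtain ⟨l, l', hl, hl', hm⟩ := exists_split (B := B) i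
  obtain ⟨s, hs, h1⟩ := sgn_prod (B := B) l I J
  have hJ : ∀ j, j ≠ i → (j ∈ J ↔ j ∈ insert i J) := fun j hj => by simp [hj]
  have h2 : y i * (l.map (blk I J)).prod = s • ((l.map (blk I J)).prod * (y i : Lam B r)) := h1 _
  have h3 : ∃ t : ℤ, (t = 1 ∨ t = -1) ∧ y i * (blk I J i : Lam B r) = t • blk I (insert i J) i := by
    unfold blk
    rw [if_neg h, if_pos (Finset.mem_insert_self i J), mul_one]
    split_ifs
    · exact ⟨-1, Or.inr rfl, by rw [x_anti]; simp⟩
    · exact ⟨1, Or.inl rfl, by simp⟩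
  obtain ⟨t, ht, h3⟩ := h3
  refine ⟨s * t, ?_, ?_⟩
  · rcases hs with rfl | rfl <;> rcases ht with rfl | rfl <;> simp
  · rw [hm I J, hm I (insert i J), ← mul_assoc]
    rw [← map_congr hl (fun j _ => Iff.rfl) hJ, ← map_congr hl' (fun j _ => Iff.rfl) hJ]
    rw [h2, smul_mul_assoc, mul_assoc, ← mul_assoc (y i), h3, smul_mul_assoc, mul_smul_comm,
      smul_smul]

theorem xy_mul_mon_mem {i : Fin r} {I J : Finset (Fin r)} (h : i ∈ I ∨ i ∈ J) :
    x i * y i * (mon I J : Lam B r) = 0 := by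
  rcases h with h | h
  · have h1 : (x i : Lam B r) * y i = -(y i * x i) := iota_anti _ _
    rw [h1, neg_mul, mul_assoc, x_mul_mon_mem h, mul_zero, neg_zero]
  · rw [mul_assoc, y_mul_mon_mem h, mul_zero]

theorem xy_mul_mon {i : Fin r} {I J : Finset (Fin r)} (hI : i ∉ I) (hJ : i ∉ J) :
    x i * y i * (mon I J : Lam B r) = mon (insert i I) (insert i J) := by
  obtain ⟨l, l', hl, hl', hm⟩ := exists_split (B := B) i
  obtain ⟨s, hs, h1⟩ := sgn_prod (B := B) l I J
  have hI' : ∀ j, j ≠ i → (j ∈ I ↔ j ∈ insert i I) := fun j hj => by simp [hj]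
  have hJ' : ∀ j, j ≠ i → (j ∈ J ↔ j ∈ insert i J) := fun j hj => by simp [hj]
  have h2 : y i * (l.map (blk I J)).prod = s • ((l.map (blk I J)).prod * (y i : Lam B r)) := h1 _
  have h2' : x i * (l.map (blk I J)).prod = s • ((l.map (blk I J)).prod * (x i : Lam B r)) := h1 _
  have hss : s * s = 1 := by rcases hs with rfl | rfl <;> norm_num
  rw [hm I J, hm (insert i I) (insert i J)]
  rw [← map_congr hl hI' hJ', ← map_congr hl' hI' hJ']
  have h3 : x i * y i * (l.map (blk I J)).prod =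
      (l.map (blk I J)).prod * ((x i : Lam B r) * y i) := by
    rw [mul_assoc, h2, mul_smul_comm, ← mul_assoc, h2', smul_mul_assoc, smul_smul, hss, one_smul,
      mul_assoc]
  rw [← mul_assoc (x i * y i), h3, mul_assoc, ← mul_assoc (x i * y i)]
  have h4 : x i * y i * (blk I J i : Lam B r) = blk (insert i I) (insert i J) i := by
    unfold blk
    rw [if_neg hI, if_neg hJ, if_pos (Finset.mem_insert_self i I),
      if_pos (Finset.mem_insert_self i J), one_mul, mul_one]
  rw [h4]

theorem mon_mul_mon_x {i : Fin r} {I J I' J' : Finset (Fin r)} (h : i ∈ I) (h' : i ∈ I') :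
    (mon I J : Lam B r) * mon I' J' = 0 := by
  obtain ⟨l, l', hl, hl', hm⟩ := exists_split (B := B) i
  have hq : Sgn ((if i ∈ J then y i else 1) * (l'.map (blk I J)).prod : Lam B r) := by
    refine Sgn.mul ?_ (sgn_prod l' I J)
    split_ifs
    · exact Sgn.iota _
    · exact Sgn.one
  obtain ⟨s, hs, h1⟩ := hq
  have h2 : blk I J i * (l'.map (blk I J)).prod =
      s • (((if i ∈ J then y i else 1) * (l'.map (blk I J)).prod) * (x i : Lam B r)) := by
    have h3 : (blk I J i : Lam B r) = x i * (if i ∈ J then y i else 1) := by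
      unfold blk
      rw [if_pos h]
    rw [h3, mul_assoc]
    exact h1 _
  rw [hm I J, h2, mul_smul_comm, smul_mul_assoc, mul_assoc, mul_assoc, x_mul_mon_mem h', mul_zero,
    mul_zero, smul_zero]

theorem mon_mul_mon_y {i : Fin r} {I J I' J' : Finset (Fin r)} (h : i ∈ J) (h' : i ∈ J') :
    (mon I J : Lam B r) * mon I' J' = 0 := by
  obtain ⟨l, l', hl, hl', hm⟩ := exists_split (B := B) i
  obtain ⟨s, hs, h1⟩ := sgn_prod (B := B) l' I J
  have h2 : blk I J i * (l'.map (blk I J)).prod =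
      s • ((if i ∈ I then x i else 1) * ((l'.map (blk I J)).prod * (y i : Lam B r))) := by
    have h3 : (blk I J i : Lam B r) = (if i ∈ I then x i else 1) * y i := by
      unfold blk
      rw [if_pos h]
    have h4 : y i * (l'.map (blk I J)).prod = s • ((l'.map (blk I J)).prod * (y i : Lam B r)) :=
      h1 _
    rw [h3, mul_assoc, h4, mul_smul_comm]
  rw [hm I J, h2, mul_smul_comm, smul_mul_assoc, mul_assoc, mul_assoc, mul_assoc,
    y_mul_mon_mem h', mul_zero, mul_zero, mul_zero, smul_zero]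

end Pc0b458D
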