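import Pool.Agent.Lib.Pc0b458D.Ext

/-!
# Positivity passes to the extension by a variable of square zero
-/

universe u

namespace Pc0b458D

namespace LM

variable {M : LM.{u}}

theorem HR.nonneg {n : ℕ} (hP : M.HR n) {x : M.V} (hx : x ∈ M.cod n)
    (hL : M.L^[M.g - 2 * n + 1] x = 0) :
    0 ≤ (-1 : ℚ) ^ n * M.B x (M.L^[M.g - 2 * n] x) ∧
      ((-1 : ℚ) ^ n * M.B x (M.L^[M.g - 2 * n] x) = 0 → x = 0) := by
  by_cases h0 : x = 0
  · subst h0
    simp
  · have := hP x hx hL h0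
    exact ⟨this.le, fun h => absurd h this.ne'⟩

theorem HR.pos {n : ℕ} (hP : M.HR n) {x : M.V} (hx : x ∈ M.cod n)
    (hL : M.L^[M.g - 2 * n + 1] x = 0) (h0 : x ≠ 0) :
    0 < (-1 : ℚ) ^ n * M.B x (M.L^[M.g - 2 * n] x) := hP x hx hL h0

/-- the step in the middle codimension of an extension of even dimension -/
theorem ext_HR_mid (d : ℕ) (hd : 0 < d) (m : ℕ) (hg : M.g = 2 * m + 1) (hP : M.HR m)
    (a v : M.V) (ha : a ∈ M.cod (m + 1)) (hv : v ∈ M.cod m) (hLa : M.L a = 0)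
    (hLv : M.L v + d • a = 0) (h0 : a ≠ 0 ∨ v ≠ 0) :
    0 < (-1 : ℚ) ^ (m + 1) * (M.B a v + M.B v a) := by
  have hd' : (0 : ℚ) < d := by exact_mod_cast hd
  have hv0 : v ≠ 0 := by
    rintro rfl
    rw [map_zero, zero_add] at hLv
    rcases h0 with h | h
    · exact h (tf hd ha hLv)
    · exact h rfl
  have hprim : M.L^[M.g - 2 * m + 1] v = 0 := by
    rw [show M.g - 2 * m + 1 = 2 by omega]
    change M.L (M.L v) = 0
    rw [eq_neg_of_add_eq_zero_left hLv, map_neg, map_nsmul, hLa, smul_zero, neg_zero]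
  have hpos := HR.pos hP hv hprim hv0
  rw [show M.g - 2 * m = 1 by omega, Function.iterate_one,
    eq_neg_of_add_eq_zero_left hLv, map_neg, B_nsmul_right] at hpos
  rw [M.symm a v, pow_succ]
  have h1 : 0 < (d : ℚ) * ((-1) ^ m * (-1) * M.B v a) := by
    have : (d : ℚ) * ((-1) ^ m * (-1) * M.B v a) = (-1) ^ m * -(d * M.B v a) := by ring
    rw [this]
    exact hpos
  have h2 := (mul_pos_iff_of_pos_left hd').1 h1
  linarith

/-- the step in codimension zero -/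
theorem ext_HR_zero (d : ℕ) (hd : 0 < d) (s : ℕ) (hg : M.g = s) (hP : M.HR 0) (a : M.V)
    (ha : a ∈ M.cod 0) (h0 : a ≠ 0) :
    0 < ((s + 1 : ℕ) : ℚ) * d * M.B a (M.L^[s] a) := by
  have hpos := HR.pos hP ha (by
    rw [show M.g - 2 * 0 + 1 = s + 1 by omega]
    exact M.top _ (by omega) _ (M.iter_mem (s + 1) 0 ha rfl)) h0
  rw [show M.g - 2 * 0 = s by omega, pow_zero, one_mul] at hpos
  have : (0 : ℚ) < ((s + 1 : ℕ) : ℚ) * d := by positivity
  exact mul_pos this hpos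

/-- the step in codimension `m + 1` below the middle -/
theorem ext_HR_succ (d : ℕ) (hd : 0 < d) (m s : ℕ) (hg : M.g = 2 * (m + 1) + s)
    (hP : M.HR (m + 1)) (hP' : M.HR m) (a v : M.V) (ha : a ∈ M.cod (m + 1)) (hv : v ∈ M.cod m)
    (hLa : M.L^[s + 2] a = 0) (hLv : M.L^[s + 2] v + ((s + 2) * d) • M.L^[s + 1] a = 0)
    (h0 : a ≠ 0 ∨ v ≠ 0) :
    0 < (-1 : ℚ) ^ (m + 1) * (M.B a (M.L^[s + 1] v + ((s + 1) * d) • M.L^[s] a) +
      M.B v (M.L^[s + 1] a)) := by
  obtain ⟨N, hN, a1, ha1, h1⟩ := M.lef m (by omega) (M.L^[s + 1] a)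
    (M.iter_mem _ _ ha (by omega))
  rw [show M.g - 2 * m = s + 2 by omega] at h1
  set a0 := N • a - M.L a1 with ha0
  have ha0m : a0 ∈ M.cod (m + 1) := sub_mem (nsmul_mem ha N) (M.L_mem m _ ha1)
  have hNa : N • a = a0 + M.L a1 := by rw [ha0, sub_add_cancel]
  have hLa0 : M.L^[s + 1] a0 = 0 := by
    rw [ha0, sub_eq_add_neg, iter_add, iter_nsmul, h1, iter_neg, ← Function.iterate_succ_apply,
      add_neg_cancel]
  have hLa1 : M.L^[s + 3] a1 = 0 := by
    rw [Function.iterate_succ_apply' M.L (s + 2) a1, ← h1, map_nsmul,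
      ← Function.iterate_succ_apply' M.L (s + 1) a, hLa, smul_zero]
  have hNv : N • v = -(((s + 2) * d) • a1) := by
    have h2 : M.L^[M.g - 2 * m] (N • v + ((s + 2) * d) • a1) = 0 := by
      rw [show M.g - 2 * m = s + 2 by omega, iter_add, iter_nsmul, iter_nsmul, ← h1, ← mul_smul,
        mul_comm ((s + 2) * d) N, mul_smul, ← smul_add, hLv, smul_zero]
    exact eq_neg_of_add_eq_zero_left
      (inj (by omega) (add_mem (nsmul_mem hv N) (nsmul_mem ha1 _)) h2)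
  have hp0 := HR.nonneg hP ha0m (by
    rw [show M.g - 2 * (m + 1) + 1 = s + 1 by omega]
    exact hLa0)
  have hp1 := HR.nonneg hP' ha1 (by
    rw [show M.g - 2 * m + 1 = s + 3 by omega]
    exact hLa1)
  rw [show M.g - 2 * (m + 1) = s by omega] at hp0
  rw [show M.g - 2 * m = s + 2 by omega] at hp1
  have hd' : (0 : ℚ) < d := by exact_mod_cast hd
  have hN' : (0 : ℚ) < N := by exact_mod_cast hN
  -- the form, multiplied by the square of `N`
  have e1 : (N : ℚ) * (N * M.B v (M.L^[s + 1] a)) =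
      -(((s : ℚ) + 2) * d * M.B a1 (M.L^[s + 2] a1)) := by
    rw [← B_nsmul_right, ← B_nsmul_left, ← iter_nsmul, hNv, hNa, iter_add, hLa0, zero_add,
      ← Function.iterate_succ_apply, map_neg, AddMonoidHom.neg_apply, B_nsmul_left]
    push_cast
    ring
  have e2 : M.B a (M.L^[s + 1] v) = M.B v (M.L^[s + 1] a) := by
    rw [← adj_iter, M.symm]
  have e3 : (N : ℚ) * (N * M.B a (M.L^[s] a)) =
      M.B a0 (M.L^[s] a0) + M.B a1 (M.L^[s + 2] a1) := by
    rw [← B_nsmul_right, ← B_nsmul_left, ← iter_nsmul, hNa, iter_add, map_add, map_add,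
      AddMonoidHom.add_apply, AddMonoidHom.add_apply]
    have e4 : M.B (M.L a1) (M.L^[s] a0) = 0 := by
      rw [M.adj, ← Function.iterate_succ_apply' M.L, hLa0, map_zero]
    have e5 : M.B a0 (M.L^[s] (M.L a1)) = 0 := by
      rw [← Function.iterate_succ_apply, ← adj_iter, hLa0, map_zero, AddMonoidHom.zero_apply]
    have e6 : M.B (M.L a1) (M.L^[s] (M.L a1)) = M.B a1 (M.L^[s + 2] a1) := by
      rw [M.adj, ← Function.iterate_succ_apply, ← Function.iterate_succ_apply' M.L]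
    rw [e4, e5, e6]
    ring
  have hne : a0 ≠ 0 ∨ a1 ≠ 0 := by
    by_contra hcon
    rw [not_or, not_not, not_not] at hcon
    rw [hcon.1, hcon.2, map_zero, add_zero] at hNa
    rw [hcon.2, smul_zero, neg_zero] at hNv
    rcases h0 with h | h
    · exact h (tf hN ha hNa)
    · exact h (tf hN hv hNv)
  have hs1 : (0 : ℚ) < ((s : ℚ) + 1) * d := by positivity
  have hs3 : (0 : ℚ) < ((s : ℚ) + 3) * d := by positivity
  have key : (N : ℚ) * N * ((-1 : ℚ) ^ (m + 1) *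
      (M.B a (M.L^[s + 1] v + ((s + 1) * d) • M.L^[s] a) + M.B v (M.L^[s + 1] a))) =
      ((s : ℚ) + 1) * d * ((-1) ^ (m + 1) * M.B a0 (M.L^[s] a0)) +
        ((s : ℚ) + 3) * d * ((-1) ^ m * M.B a1 (M.L^[s + 2] a1)) := by
    rw [map_add, B_nsmul_right, e2]
    have : (N : ℚ) * N * ((-1 : ℚ) ^ (m + 1) *
      (M.B v (M.L^[s + 1] a) + (((s + 1) * d : ℕ) : ℚ) * M.B a (M.L^[s] a) +
        M.B v (M.L^[s + 1] a))) = (-1 : ℚ) ^ (m + 1) *
        (2 * ((N : ℚ) * (N * M.B v (M.L^[s + 1] a))) +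
          (((s + 1) * d : ℕ) : ℚ) * ((N : ℚ) * (N * M.B a (M.L^[s] a)))) := by ring
    rw [this, e1, e3, pow_succ]
    push_cast
    ring
  have hpos : 0 < (N : ℚ) * N * ((-1 : ℚ) ^ (m + 1) *
      (M.B a (M.L^[s + 1] v + ((s + 1) * d) • M.L^[s] a) + M.B v (M.L^[s + 1] a))) := by
    rw [key]
    rcases hne with h | h
    · have h5 := mul_pos hs1 (lt_of_le_of_ne hp0.1 fun h' => h (hp0.2 h'.symm))
      have h6 := mul_nonneg hs3.le hp1.1
      linarith
    · have h5 := mul_nonneg hs1.le hp0.1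
      have h6 := mul_pos hs3 (lt_of_le_of_ne hp1.1 fun h' => h (hp1.2 h'.symm))
      linarith
  exact (mul_pos_iff_of_pos_left (mul_pos hN' hN')).1 hpos

theorem ext_HR_aux (M : LM.{u}) (d : ℕ) (hd : 0 < d) (n0 : ℕ)
    (h : ∀ m ≤ n0, 2 * m ≤ M.g → M.HR m) (n : ℕ) (hn0 : n ≤ n0) (hn : 2 * n ≤ M.g + 1)
    (x : M.V × M.V) (hx : x ∈ M.extCod n) (hL : (M.extL d)^[M.g + 1 - 2 * n + 1] x = 0)
    (h0 : x ≠ 0) : 0 < (-1 : ℚ) ^ n * M.extB x ((M.extL d)^[M.g + 1 - 2 * n] x) := by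
  have h0' : x.1 ≠ 0 ∨ x.2 ≠ 0 := by
    by_contra hcon
    rw [not_or, not_not, not_not] at hcon
    exact h0 (Prod.ext hcon.1 hcon.2)
  rcases Nat.eq_or_lt_of_le hn with h1 | h1
  · obtain ⟨m, rfl⟩ : ∃ m, n = m + 1 := ⟨n - 1, by omega⟩
    rw [extCod_succ_iff] at hx
    rw [show M.g + 1 - 2 * (m + 1) = 0 by omega] at hL ⊢
    rw [zero_add, Function.iterate_one] at hL
    rw [Function.iterate_zero, id_eq, extB_apply]
    exact ext_HR_mid d hd m (by omega) (h m (by omega) (by omega)) x.1 x.2 hx.1 hx.2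
      (congrArg Prod.fst hL) (congrArg Prod.snd hL) h0'
  · obtain ⟨s, hs⟩ : ∃ s, M.g = 2 * n + s := ⟨M.g - 2 * n, by omega⟩
    rw [show M.g + 1 - 2 * n = s + 1 by omega] at hL ⊢
    rw [extB_apply, extL_iter_fst, extL_iter_snd]
    have hL1 := congrArg Prod.fst hL
    have hL2 := congrArg Prod.snd hL
    rw [extL_iter_fst] at hL1
    rw [extL_iter_snd] at hL2
    rcases n with _ | m
    · rw [extCod_zero_iff] at hx
      rw [hx.2, iter_zero, map_zero, AddMonoidHom.zero_apply, add_zero, zero_add, pow_zero,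
        one_mul, B_nsmul_right]
      have := ext_HR_zero d hd s (by omega) (h 0 (by omega) (by omega)) x.1 hx.1
        (h0'.resolve_right fun h => h hx.2)
      push_cast at this ⊢
      exact this
    · rw [extCod_succ_iff] at hx
      exact ext_HR_succ d hd m s hs (h (m + 1) hn0 (by omega)) (h m (by omega) (by omega))
        x.1 x.2 hx.1 hx.2 hL1 hL2 h0'

/-- positivity passes to the extension by one variable -/
theorem ext_HR (M : LM.{u}) (d : ℕ) (hd : 0 < d) (n0 : ℕ)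
    (h : ∀ m ≤ n0, 2 * m ≤ M.g → M.HR m) (n : ℕ) (hn0 : n ≤ n0) (hn : 2 * n ≤ M.g + 1) :
    (M.ext d hd).HR n :=
  fun x hx hL h0 => ext_HR_aux M d hd n0 h n hn0 hn x hx hL h0

end LM

end Pc0b458D
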