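import Pool.Agent.Lib.Pc0b458D.Step

/-!
# The tower of extensions by variables of square zero
-/

universe u

namespace Pc0b458D

open Finset

section

variable (M : LM.{u}) {r : ℕ} (d : Fin r → ℕ) (hd : ∀ i, 0 < d i)

/-- adjoin one variable for each element of the list -/
noncomputable def TW : List (Fin r) → LM.{u}
  | [] => M
  | i :: l => (TW l).ext (d i) (hd i)

/-- the element of the tower with coefficients `γ` -/
noncomputable def phi : (l : List (Fin r)) → (Finset (Fin r) → M.V) → (TW M d hd l).V
  | [], γ => γ ∅
  | i :: l, γ => (phi l γ, phi l fun S => γ (insert i S))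

variable {M d hd}

theorem TW_g (l : List (Fin r)) : (TW M d hd l).g = M.g + l.length := by
  induction l with
  | nil => rfl
  | cons i l ih =>
    have : (TW M d hd (i :: l)).g = (TW M d hd l).g + 1 := rfl
    rw [this, ih, List.length_cons]
    ring

theorem phi_congr {l : List (Fin r)} {γ γ' : Finset (Fin r) → M.V}
    (h : ∀ S ⊆ l.toFinset, γ S = γ' S) : phi M d hd l γ = phi M d hd l γ' := by
  induction l generalizing γ γ' with
  | nil => exact h ∅ (by simp)
  | cons i l ih =>
    have h1 : phi M d hd l γ = phi M d hd l γ' := by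
      apply ih
      intro S hS
      apply h
      rw [List.toFinset_cons]
      exact hS.trans (subset_insert _ _)
    have h2 : phi M d hd l (fun S => γ (insert i S)) =
        phi M d hd l (fun S => γ' (insert i S)) := by
      apply ih
      intro S hS
      apply h
      rw [List.toFinset_cons]
      exact insert_subset_insert i hS
    exact Prod.ext h1 h2

theorem phi_zero (l : List (Fin r)) : phi M d hd l (fun _ => 0) = 0 := by
  induction l with
  | nil => rfl
  | cons i l ih => exact Prod.ext ih ih

theorem phi_mem {l : List (Fin r)} (hl : l.Nodup) {γ : Finset (Fin r) → M.V} {n : ℕ}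
    (h : ∀ S ⊆ l.toFinset, γ S ≠ 0 → S.card ≤ n ∧ γ S ∈ M.cod (n - S.card)) :
    phi M d hd l γ ∈ (TW M d hd l).cod n := by
  induction l generalizing γ n with
  | nil =>
    change γ ∅ ∈ M.cod n
    by_cases h0 : γ ∅ = 0
    · rw [h0]
      exact zero_mem _
    · simpa using (h ∅ (by simp) h0).2
  | cons i l ih =>
    obtain ⟨hi, hl⟩ := List.nodup_cons.mp hl
    have hi' : i ∉ l.toFinset := by simpa using hi
    rw [List.toFinset_cons] at h
    change (phi M d hd l γ, phi M d hd l fun S => γ (insert i S)) ∈ (TW M d hd l).extCod n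
    have h1 : phi M d hd l γ ∈ (TW M d hd l).cod n :=
      ih hl fun S hS hne => h S (hS.trans (subset_insert _ _)) hne
    have hcard : ∀ S ⊆ l.toFinset, (insert i S).card = S.card + 1 := fun S hS =>
      card_insert_of_notMem fun hiS => hi' (hS hiS)
    rcases n with _ | n
    · refine (LM.extCod_zero_iff _).2 ⟨h1, ?_⟩
      have : phi M d hd l (fun S => γ (insert i S)) = phi M d hd l (fun _ => 0) := by
        apply phi_congr
        intro S hS
        by_contra hne
        have := (h _ (insert_subset_insert i hS) hne).1
        rw [hcard S hS] at this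
        omega
      exact this.trans (phi_zero l)
    · refine (LM.extCod_succ_iff _ _).2 ⟨h1, ?_⟩
      apply ih hl
      intro S hS hne
      have := h _ (insert_subset_insert i hS) hne
      rw [hcard S hS] at this
      refine ⟨by omega, ?_⟩
      have h2 := this.2
      rwa [show n + 1 - (S.card + 1) = n - S.card by omega] at h2

theorem phi_add (l : List (Fin r)) (γ γ' : Finset (Fin r) → M.V) :
    phi M d hd l (fun S => γ S + γ' S) = phi M d hd l γ + phi M d hd l γ' := by
  induction l generalizing γ γ' with
  | nil => rfl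
  | cons i l ih => exact Prod.ext (ih _ _) (ih _ _)

theorem phi_nsmul (l : List (Fin r)) (N : ℕ) (γ : Finset (Fin r) → M.V) :
    phi M d hd l (fun S => N • γ S) = N • phi M d hd l γ := by
  induction N with
  | zero =>
    simp only [zero_smul]
    exact phi_zero l
  | succ N ih =>
    simp only [succ_nsmul]
    rw [phi_add, ih]

theorem phi_L {l : List (Fin r)} (hl : l.Nodup) {γ γ' : Finset (Fin r) → M.V}
    (h : ∀ S ⊆ l.toFinset, γ' S = M.L (γ S) + ∑ i ∈ S, d i • γ (S.erase i)) :
    (TW M d hd l).L (phi M d hd l γ) = phi M d hd l γ' := by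
  induction l generalizing γ γ' with
  | nil =>
    change M.L (γ ∅) = γ' ∅
    rw [h ∅ (by simp)]
    simp
  | cons i l ih =>
    obtain ⟨hi, hl⟩ := List.nodup_cons.mp hl
    have hi' : i ∉ l.toFinset := by simpa using hi
    rw [List.toFinset_cons] at h
    have h1 : (TW M d hd l).L (phi M d hd l γ) = phi M d hd l γ' :=
      ih hl fun S hS => h S (hS.trans (subset_insert _ _))
    have h2 : (TW M d hd l).L (phi M d hd l fun S => γ (insert i S)) =
        phi M d hd l fun S => M.L (γ (insert i S)) + ∑ j ∈ S, d j • γ (insert i (S.erase j)) :=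
      ih hl fun S _ => rfl
    have h3 : (phi M d hd l fun S => γ' (insert i S)) =
        (TW M d hd l).L (phi M d hd l fun S => γ (insert i S)) + d i • phi M d hd l γ := by
      rw [h2, ← phi_nsmul, ← phi_add]
      apply phi_congr
      intro S hS
      have hiS : i ∉ S := fun hiS => hi' (hS hiS)
      rw [h _ (insert_subset_insert i hS), sum_insert hiS, erase_insert hiS, add_assoc,
        add_comm (d i • γ S)]
      congr 2
      apply sum_congr rfl
      intro j hj
      rw [erase_insert_of_ne]
      rintro rfl
      exact hiS hj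
    exact Prod.ext h1 h3.symm

theorem phi_B {l : List (Fin r)} (hl : l.Nodup) (γ γ' : Finset (Fin r) → M.V) :
    (TW M d hd l).B (phi M d hd l γ) (phi M d hd l γ') =
      ∑ S ∈ l.toFinset.powerset, M.B (γ S) (γ' (l.toFinset \ S)) := by
  induction l generalizing γ γ' with
  | nil =>
    change M.B (γ ∅) (γ' ∅) = _
    simp
  | cons i l ih =>
    obtain ⟨hi, hl⟩ := List.nodup_cons.mp hl
    have hi' : i ∉ l.toFinset := by simpa using hi
    rw [List.toFinset_cons, sum_powerset_insert hi']
    have h1 : ∀ S ∈ l.toFinset.powerset, M.B (γ S) (γ' (insert i l.toFinset \ S)) =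
        M.B (γ S) (γ' (insert i (l.toFinset \ S))) := by
      intro S hS
      have hiS : i ∉ S := fun hiS => hi' (mem_powerset.mp hS hiS)
      rw [insert_sdiff_of_notMem _ hiS]
    have h2 : ∀ S ∈ l.toFinset.powerset,
        M.B (γ (insert i S)) (γ' (insert i l.toFinset \ insert i S)) =
        M.B (γ (insert i S)) (γ' (l.toFinset \ S)) := by
      intro S hS
      rw [insert_sdiff_insert, sdiff_insert_of_notMem hi']
    rw [sum_congr rfl h1, sum_congr rfl h2]
    have h3 := ih hl γ (fun S => γ' (insert i S))
    have h4 := ih hl (fun S => γ (insert i S)) γ'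
    rw [← h3, ← h4]
    rfl

theorem phi_ne {l : List (Fin r)} {γ : Finset (Fin r) → M.V} {S : Finset (Fin r)}
    (hS : S ⊆ l.toFinset) (h : γ S ≠ 0) : phi M d hd l γ ≠ 0 := by
  induction l generalizing γ S with
  | nil =>
    have : S = ∅ := by simpa using hS
    rw [this] at h
    exact h
  | cons i l ih =>
    rw [List.toFinset_cons] at hS
    intro h0
    have h1 : phi M d hd l γ = 0 := congrArg Prod.fst h0
    have h2 : (phi M d hd l fun S => γ (insert i S)) = 0 := congrArg Prod.snd h0
    by_cases hi : i ∈ S
    · refine ih (γ := fun S => γ (insert i S)) (S := S.erase i) ?_ ?_ h2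
      · exact fun a ha => by
          have ha' := mem_erase.mp ha
          exact (mem_insert.mp (hS ha'.2)).resolve_left ha'.1
      · rwa [insert_erase hi]
    · refine ih ?_ h h1
      intro a ha
      refine (mem_insert.mp (hS ha)).resolve_left ?_
      rintro rfl
      exact hi ha

theorem TW_HR {n₀ : ℕ} (h : ∀ m ≤ n₀, 2 * m ≤ M.g → M.HR m) (l : List (Fin r)) :
    ∀ n ≤ n₀, 2 * n ≤ (TW M d hd l).g → (TW M d hd l).HR n := by
  induction l with
  | nil => exact h
  | cons i l ih =>
    intro n hn hg
    exact LM.ext_HR (TW M d hd l) (d i) (hd i) n₀ ih n hn hg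

end

end Pc0b458D
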